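import Pool.Agent.Helper60.GP.Spec
import Pool.Agent.Helper60.GT.Geo
import Pool.Agent.Helper60.VT.Spec

/-!
# Module P7: low types

`F = (H \ M).filter (typ < a₀)`. `hDy : StDyad` for `F`, with `2^I ≥ √k`, `2^I ≤ 2 √k + 2 ≤ k`. For
`G ⊆ F` with ridge degrees `≤ 2^i ≤ k`: type 1 members: `≤ max (2^i) (k+1) ≤ k + 1` for each
`m ∈ M` (`hs : StSingle`; all contain a ridge or all are `k`-subsets of a `(k+1)`-set); type `j`,
`2 ≤ j < a₀`: `hT : StTypeJ2` with `t = 2^i`. So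
`|G| ≤ A i := (2k + 4 a₀^3 (k 2^i)^(1 - 1/a₀) + 8 a₀^2 k)|M|` (for `a₀ ≥ 2`; if `a₀ ≤ 1` then
`F = ∅` by `typ_pos`) and
`∑_{i > i₀} 2 A i/2^i ≤ (20 a₀^2 k 2^(-i₀) + 8 a₀^3 k^(1-1/a₀) ∑_i 2^(-i/a₀))|M| ≤ ε k |M|`:
choose `i₀` first, then `k₀`.
-/

set_option autoImplicit false

open Finset

namespace Pool.Agent.Helper60.GT

/-- the members of type one -/
private theorem low_one (hs : StSingle) {V : Type} [DecidableEq V] {k t : ℕ}
    {H M G : Finset (Finset V)} (hk : 2 ≤ k) (htk : t ≤ k + 1) (hH : ∀ e ∈ H, e.card = k)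
    (hMax : MaxPack k H M) (hG : G ⊆ H \ M)
    (hdeg : ∀ S : Finset V, S.card = k - 1 → (G.filter (fun e => S ⊆ e)).card ≤ t) :
    (G.filter (fun f => typ k M f = 1)).card ≤ (k + 1) * M.card := by
  have hsub : G.filter (fun f => typ k M f = 1) ⊆
      M.biUnion (fun m => G.filter (fun f => nbr k M f = {m})) := by
    intro f hf
    rw [mem_filter, typ, card_eq_one] at hf
    obtain ⟨hf1, m, hm⟩ := hf
    rw [mem_biUnion]
    have h2 : m ∈ nbr k M f := by rw [hm]; exact mem_singleton_self _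
    exact ⟨m, (mem_filter.1 h2).1, mem_filter.2 ⟨hf1, hm⟩⟩
  calc _ ≤ _ := card_le_card hsub
    _ ≤ ∑ m ∈ M, (G.filter (fun f => nbr k M f = {m})).card := card_biUnion_le
    _ ≤ ∑ _m ∈ M, (k + 1) := by
      refine sum_le_sum (fun m hm => ?_)
      rcases hs V k H M hk hH hMax m hm with ⟨S, -, hSc, hS⟩ | ⟨Q, -, hQc, hQ⟩
      · have h2 : G.filter (fun f => nbr k M f = {m}) ⊆ G.filter (fun e => S ⊆ e) := by
          intro f hf
          rw [mem_filter] at hf ⊢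
          exact ⟨hf.1, hS f (hG hf.1) hf.2⟩
        have h3 := card_le_card h2
        have h4 := hdeg S hSc
        omega
      · have h2 : G.filter (fun f => nbr k M f = {m}) ⊆ Q.powersetCard k := by
          intro f hf
          rw [mem_filter] at hf
          rw [mem_powersetCard]
          exact ⟨hQ f (hG hf.1) hf.2, hH f (mem_sdiff.1 (hG hf.1)).1⟩
        have h3 := card_le_card h2
        rw [card_powersetCard, hQc, Nat.choose_succ_self_right] at h3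
        exact h3
    _ = (k + 1) * M.card := by rw [sum_const, smul_eq_mul, mul_comm]

/-- the powers -/
private theorem low_pow (k i j a : ℕ) (hk : 1 ≤ k) (hj : 2 ≤ j) (hja : j ≤ a) :
    ((k : ℝ) * ((2 ^ i : ℕ) : ℝ)) ^ (1 - 1 / (j : ℝ)) ≤
      (k : ℝ) ^ (1 - 1 / (a : ℝ)) * (2 ^ i * ((2 : ℝ) ^ (-(1 / (a : ℝ)))) ^ i) := by
  have hk' : (1 : ℝ) ≤ k := by exact_mod_cast hk
  have hj' : (2 : ℝ) ≤ j := by exact_mod_cast hj
  have hja' : (j : ℝ) ≤ a := by exact_mod_cast hja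
  have h2i : (1 : ℝ) ≤ 2 ^ i := one_le_pow₀ (by norm_num)
  have hcast : ((2 ^ i : ℕ) : ℝ) = 2 ^ i := by push_cast; rfl
  rw [hcast]
  have hkt : (1 : ℝ) ≤ (k : ℝ) * 2 ^ i := by nlinarith
  have h1 : ((k : ℝ) * 2 ^ i) ^ (1 - 1 / (j : ℝ)) ≤ ((k : ℝ) * 2 ^ i) ^ (1 - 1 / (a : ℝ)) := by
    apply Real.rpow_le_rpow_of_exponent_le hkt
    have : 1 / (a : ℝ) ≤ 1 / (j : ℝ) := one_div_le_one_div_of_le (by linarith) hja'
    linarith
  refine h1.trans (le_of_eq ?_)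
  rw [Real.mul_rpow (by linarith) (by positivity)]
  congr 1
  rw [sub_eq_add_neg, Real.rpow_add (by positivity), Real.rpow_one]
  congr 1
  rw [← Real.rpow_natCast 2 i, ← Real.rpow_natCast _ i, ← Real.rpow_mul (by norm_num),
    ← Real.rpow_mul (by norm_num), mul_comm]

/-- the number of members of a family with bounded ridge degrees -/
private theorem low_count (hT : StTypeJ2) (hs : StSingle) {V : Type} [DecidableEq V]
    {k i a : ℕ} {H M G : Finset (Finset V)} (hk : 2 ≤ k) (ha : 2 ≤ a) (htk : 2 ^ i ≤ k)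
    (hH : ∀ e ∈ H, e.card = k) (hMax : MaxPack k H M) (hG : G ⊆ H \ M)
    (hty : ∀ f ∈ G, typ k M f < a)
    (hdeg : ∀ S : Finset V, S.card = k - 1 → (G.filter (fun e => S ⊆ e)).card ≤ 2 ^ i) :
    (G.card : ℝ) ≤ (((k : ℝ) + 1) + 8 * (a : ℝ) ^ 2 * k + 4 * a * (1 + (a : ℝ) ^ 2) *
      ((k : ℝ) ^ (1 - 1 / (a : ℝ)) * (2 ^ i * ((2 : ℝ) ^ (-(1 / (a : ℝ)))) ^ i))) * M.card := by
  have hk' : (2 : ℝ) ≤ k := by exact_mod_cast hk
  have ha' : (2 : ℝ) ≤ a := by exact_mod_cast ha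
  have htk' : ((2 ^ i : ℕ) : ℝ) ≤ k := by exact_mod_cast htk
  obtain ⟨X, hX⟩ : ∃ X : ℝ, X = (k : ℝ) ^ (1 - 1 / (a : ℝ)) *
      (2 ^ i * ((2 : ℝ) ^ (-(1 / (a : ℝ)))) ^ i) := ⟨_, rfl⟩
  have hX0 : 0 ≤ X := by rw [hX]; positivity
  rw [← hX]
  have h1 := low_one hs hk (by omega : 2 ^ i ≤ k + 1) hH hMax hG hdeg
  have hM0 : (0 : ℝ) ≤ (M.card : ℝ) := by positivity
  have h2 : ∀ j ∈ Ico 2 a, ((G.filter (fun f => typ k M f = j)).card : ℝ) ≤
      (4 * (1 + (a : ℝ) ^ 2) * X + 8 * a * k) * M.card := by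
    intro j hj
    rw [mem_Ico] at hj
    have hj' : (2 : ℝ) ≤ j := by exact_mod_cast hj.1
    have hja : (j : ℝ) ≤ a := by exact_mod_cast hj.2.le
    have g1 := hT V k j (2 ^ i) H M (G.filter (fun f => typ k M f = j)) hk hj.1
      Nat.one_le_two_pow hH hMax ((filter_subset _ _).trans hG)
      (fun f hf => (mem_filter.1 hf).2) (by
        intro S hS
        refine le_trans (card_le_card ?_) (hdeg S hS)
        exact filter_subset_filter _ (filter_subset _ _))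
    refine g1.trans (mul_le_mul_of_nonneg_right ?_ hM0)
    have g2 := low_pow k i j a (by omega) hj.1 hj.2.le
    rw [← hX] at g2
    have g3 : (1 + (j : ℝ) ^ 2) * ((k : ℝ) * ((2 ^ i : ℕ) : ℝ)) ^ (1 - 1 / (j : ℝ)) ≤
        (1 + (a : ℝ) ^ 2) * X :=
      mul_le_mul (by nlinarith) g2 (by positivity) (by positivity)
    have g4 : (j : ℝ) * (((2 ^ i : ℕ) : ℝ) + k) ≤ a * (2 * k) :=
      mul_le_mul hja (by linarith) (by positivity) (by positivity)
    nlinarith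
  have hsub : G ⊆ G.filter (fun f => typ k M f = 1) ∪
      (Ico 2 a).biUnion (fun j => G.filter (fun f => typ k M f = j)) := by
    intro f hf
    have h4 := typ_pos hk hH hMax (hG hf)
    have h5 := hty f hf
    rcases Nat.lt_or_ge (typ k M f) 2 with h6 | h6
    · exact mem_union_left _ (mem_filter.2 ⟨hf, by omega⟩)
    · exact mem_union_right _ (mem_biUnion.2 ⟨typ k M f, mem_Ico.2 ⟨h6, h5⟩,
        mem_filter.2 ⟨hf, rfl⟩⟩)
  have h3 : (G.card : ℝ) ≤ ((G.filter (fun f => typ k M f = 1)).card : ℝ) +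
      ∑ j ∈ Ico 2 a, ((G.filter (fun f => typ k M f = j)).card : ℝ) := by
    have g1 := card_le_card hsub
    have g2 := card_union_le (G.filter (fun f => typ k M f = 1))
      ((Ico 2 a).biUnion (fun j => G.filter (fun f => typ k M f = j)))
    have g3 : ((Ico 2 a).biUnion (fun j => G.filter (fun f => typ k M f = j))).card ≤
        ∑ j ∈ Ico 2 a, (G.filter (fun f => typ k M f = j)).card := card_biUnion_le
    exact_mod_cast g1.trans (g2.trans (by omega))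
  have h4 := sum_le_sum h2
  rw [sum_const, nsmul_eq_mul, Nat.card_Ico] at h4
  have h5 : ((a - 2 : ℕ) : ℝ) ≤ a := by exact_mod_cast Nat.sub_le a 2
  have h6 : (0 : ℝ) ≤ (4 * (1 + (a : ℝ) ^ 2) * X + 8 * a * k) * M.card := by positivity
  have h7 := mul_le_mul_of_nonneg_right h5 h6
  have h8 : ((G.filter (fun f => typ k M f = 1)).card : ℝ) ≤ ((k : ℝ) + 1) * M.card := by
    exact_mod_cast h1
  calc (G.card : ℝ) ≤ ((k : ℝ) + 1) * M.card +
        (a : ℝ) * ((4 * (1 + (a : ℝ) ^ 2) * X + 8 * a * k) * M.card) := by linarith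
    _ = _ := by ring

private theorem low_geo (r : ℝ) (h0 : 0 ≤ r) (h1 : r < 1) (i₀ I : ℕ) :
    ∑ i ∈ Ioc i₀ I, r ^ i ≤ 1 / (1 - r) := by
  have h2 : ∑ i ∈ Ioc i₀ I, r ^ i ≤ ∑' i : ℕ, r ^ i :=
    Summable.sum_le_tsum _ (fun i _ => pow_nonneg h0 i) (summable_geometric_of_lt_one h0 h1)
  rw [tsum_geometric_of_lt_one h0 h1] at h2
  rwa [one_div]

private theorem low_half (i₀ I : ℕ) (h : i₀ ≤ I) :
    ∑ i ∈ Ioc i₀ I, (1 / 2 : ℝ) ^ i ≤ (1 / 2 : ℝ) ^ i₀ - (1 / 2 : ℝ) ^ I := by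
  induction I, h using Nat.le_induction with
  | base => simp
  | succ n hn ih =>
    rw [← Finset.insert_Ioc_right_eq_Ioc_add_one hn, sum_insert (by simp)]
    rw [pow_succ (1 / 2 : ℝ) n]
    linarith

theorem low (hT : StTypeJ2) (hs : StSingle) (hDy : StDyad) : StLow := by
  intro a₀ ε hε
  obtain ⟨a, haM⟩ : ∃ a : ℕ, a = max a₀ 2 := ⟨_, rfl⟩
  have ha0 : a₀ ≤ a := by rw [haM]; exact le_max_left _ _
  have ha : 2 ≤ a := by rw [haM]; exact le_max_right _ _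
  have ha' : (2 : ℝ) ≤ a := by exact_mod_cast ha
  obtain ⟨r, hr⟩ : ∃ r : ℝ, r = (2 : ℝ) ^ (-(1 / (a : ℝ))) := ⟨_, rfl⟩
  have hr0 : 0 < r := by rw [hr]; positivity
  have hr1 : r < 1 := by
    rw [hr]
    apply Real.rpow_lt_one_of_one_lt_of_neg (by norm_num)
    have : 0 < 1 / (a : ℝ) := by positivity
    linarith
  -- the choice of i₀
  obtain ⟨i₀, hi₀⟩ : ∃ i₀ : ℕ, (1 / 2 : ℝ) ^ i₀ < ε / (40 * (a : ℝ) ^ 2) :=
    exists_pow_lt_of_lt_one (by positivity) (by norm_num)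
  -- the choice of k₀
  obtain ⟨Z, hZ⟩ : ∃ Z : ℝ, Z = 16 * a * (1 + (a : ℝ) ^ 2) / (ε * (1 - r)) := ⟨_, rfl⟩
  have hZ0 : 0 ≤ Z := by
    rw [hZ]
    have : 0 < 1 - r := by linarith
    positivity
  refine ⟨i₀, max (max 9 (2 ^ i₀)) ⌈Z ^ a⌉₊, fun k hk V _ H M hH hMax hdeg => ?_⟩
  have hk9 : 9 ≤ k := ((le_max_left _ _).trans (le_max_left _ _)).trans hk
  have hki : 2 ^ i₀ ≤ k := ((le_max_right _ _).trans (le_max_left _ _)).trans hk
  have hkZ : Z ^ a ≤ k := (Nat.le_ceil _).trans (by exact_mod_cast (le_max_right _ _).trans hk)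
  have hkR : (9 : ℝ) ≤ k := by exact_mod_cast hk9
  -- the number I
  obtain ⟨s, hs'⟩ : ∃ s : ℕ, s = Nat.sqrt k := ⟨_, rfl⟩
  have hs2 : s * s ≤ k := by rw [hs']; exact Nat.sqrt_le k
  have hs3 : 3 ≤ s := by rw [hs']; exact Nat.le_sqrt.2 hk9
  obtain ⟨I, hI⟩ : ∃ I : ℕ, I = max i₀ (Nat.clog 2 s) := ⟨_, rfl⟩
  have hi₀I : i₀ ≤ I := by rw [hI]; exact le_max_left _ _
  have hsI : s ≤ 2 ^ I := by
    calc s ≤ 2 ^ Nat.clog 2 s := Nat.le_pow_clog (by norm_num) s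
      _ ≤ 2 ^ I := Nat.pow_le_pow_right (by norm_num) (by rw [hI]; exact le_max_right _ _)
  have hIk : 2 ^ I ≤ k := by
    have h1 : 2 ^ Nat.clog 2 s ≤ k := by
      have h2 : 2 ^ (Nat.clog 2 s).pred < s := Nat.pow_pred_clog_lt_self (by norm_num) (by omega)
      have h3 : 0 < Nat.clog 2 s := Nat.clog_pos (by norm_num) (by omega)
      obtain ⟨q, hq⟩ : ∃ q, Nat.clog 2 s = q + 1 := ⟨Nat.clog 2 s - 1, by omega⟩
      rw [hq] at h2 ⊢
      rw [Nat.pred_succ] at h2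
      rw [pow_succ]
      nlinarith
    rw [hI]
    rcases max_choice i₀ (Nat.clog 2 s) with h2 | h2
    · rw [h2]; exact hki
    · rw [h2]; exact h1
  obtain ⟨A, hA⟩ : ∃ A : ℕ → ℝ, A = fun i => (((k : ℝ) + 1) + 8 * (a : ℝ) ^ 2 * k +
      4 * a * (1 + (a : ℝ) ^ 2) * ((k : ℝ) ^ (1 - 1 / (a : ℝ)) * (2 ^ i * r ^ i))) *
      M.card := ⟨_, rfl⟩
  obtain ⟨G, hG, C, hC1, hC2, hC3, hC4⟩ := hDy V k i₀ I A
    ((H \ M).filter (fun f => typ k M f < a₀)) hi₀I (by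
      intro S hS
      refine le_trans (card_le_card (?_ : _ ⊆ H.filter (fun e => S ⊆ e))) ?_
      · intro f hf
        rw [mem_filter, mem_filter, mem_sdiff] at hf
        exact mem_filter.2 ⟨hf.1.1.1, hf.2⟩
      · refine le_trans ?_ hsI
        rw [hs', Nat.le_sqrt']
        exact hdeg S hS) (by
      intro i hi hiI G hG hGdeg
      rw [hA, hr]
      exact low_count hT hs (by omega) ha ((Nat.pow_le_pow_right (by norm_num) hiI).trans hIk)
        hH hMax (hG.trans (filter_subset _ _))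
        (fun f hf => lt_of_lt_of_le (mem_filter.1 (hG hf)).2 ha0) hGdeg)
  refine ⟨G, hG, C, hC1, hC2, hC3, hC4.trans ?_⟩
  -- the total cost
  have hM0 : (0 : ℝ) ≤ (M.card : ℝ) := by positivity
  have h1r : 0 < 1 - r := by linarith
  obtain ⟨Y, hY⟩ : ∃ Y : ℝ, Y = (k : ℝ) ^ (1 - 1 / (a : ℝ)) := ⟨_, rfl⟩
  have hY0 : 0 ≤ Y := by rw [hY]; positivity
  have hterm : ∀ i ∈ Ioc i₀ I, 2 * A i / 2 ^ i ≤
      (20 * (a : ℝ) ^ 2 * k * (1 / 2 : ℝ) ^ i + 8 * a * (1 + (a : ℝ) ^ 2) * Y * r ^ i) *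
        M.card := by
    intro i _
    have h2 : 2 * A i / 2 ^ i = ((2 * ((k : ℝ) + 1) + 16 * (a : ℝ) ^ 2 * k) * (1 / 2 : ℝ) ^ i +
        8 * a * (1 + (a : ℝ) ^ 2) * Y * r ^ i) * M.card := by
      rw [hA, hY]
      rw [one_div_pow]
      field_simp
      ring
    rw [h2]
    apply mul_le_mul_of_nonneg_right _ hM0
    have h3 : (0 : ℝ) < (1 / 2 : ℝ) ^ i := by positivity
    have h4 : 2 * ((k : ℝ) + 1) + 16 * (a : ℝ) ^ 2 * k ≤ 20 * (a : ℝ) ^ 2 * k := by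
      have h5 : 4 ≤ (a : ℝ) ^ 2 := by nlinarith
      have h6 : 4 * (k : ℝ) ≤ (a : ℝ) ^ 2 * k := mul_le_mul_of_nonneg_right h5 (by linarith)
      linarith
    have h7 := mul_le_mul_of_nonneg_right h4 h3.le
    linarith
  have hYk : 8 * a * (1 + (a : ℝ) ^ 2) * Y * (1 / (1 - r)) ≤ ε / 2 * k := by
    have h2 : Z ≤ (k : ℝ) ^ (1 / (a : ℝ)) := by
      have h3 : (Z ^ a) ^ (1 / (a : ℝ)) ≤ (k : ℝ) ^ (1 / (a : ℝ)) :=
        Real.rpow_le_rpow (by positivity) hkZ (by positivity)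
      rw [one_div, Real.pow_rpow_inv_natCast hZ0 (by omega)] at h3
      rwa [one_div]
    have h4 : Y * (k : ℝ) ^ (1 / (a : ℝ)) = k := by
      rw [hY, ← Real.rpow_add (by linarith)]
      simp
    have h5 : Y * Z ≤ k := by
      calc Y * Z ≤ Y * (k : ℝ) ^ (1 / (a : ℝ)) := mul_le_mul_of_nonneg_left h2 hY0
        _ = k := h4
    have h6 : 8 * a * (1 + (a : ℝ) ^ 2) * Y * (1 / (1 - r)) = ε / 2 * (Y * Z) := by
      rw [hZ]
      field_simp
      ring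
    rw [h6]
    exact mul_le_mul_of_nonneg_left h5 (by positivity)
  have hgeo := low_geo r hr0.le hr1 i₀ I
  have hhalf := low_half i₀ I hi₀I
  have hpos : (0 : ℝ) < (1 / 2 : ℝ) ^ I := by positivity
  calc ∑ i ∈ Ioc i₀ I, 2 * A i / 2 ^ i
      ≤ ∑ i ∈ Ioc i₀ I, (20 * (a : ℝ) ^ 2 * k * (1 / 2 : ℝ) ^ i +
          8 * a * (1 + (a : ℝ) ^ 2) * Y * r ^ i) * M.card := sum_le_sum hterm
    _ = (20 * (a : ℝ) ^ 2 * k * ∑ i ∈ Ioc i₀ I, (1 / 2 : ℝ) ^ i +
          8 * a * (1 + (a : ℝ) ^ 2) * Y * ∑ i ∈ Ioc i₀ I, r ^ i) * M.card := by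
        rw [← sum_mul, sum_add_distrib, ← mul_sum, ← mul_sum]
    _ ≤ (ε * k) * M.card := by
        apply mul_le_mul_of_nonneg_right _ hM0
        have h2 : 20 * (a : ℝ) ^ 2 * k * ∑ i ∈ Ioc i₀ I, (1 / 2 : ℝ) ^ i ≤ ε / 2 * k := by
          calc 20 * (a : ℝ) ^ 2 * k * ∑ i ∈ Ioc i₀ I, (1 / 2 : ℝ) ^ i
              ≤ 20 * (a : ℝ) ^ 2 * k * (ε / (40 * (a : ℝ) ^ 2)) := by
                apply mul_le_mul_of_nonneg_left _ (by positivity)
                linarith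
            _ = ε / 2 * k := by
                field_simp
                ring
        have h3 : 8 * a * (1 + (a : ℝ) ^ 2) * Y * ∑ i ∈ Ioc i₀ I, r ^ i ≤
            8 * a * (1 + (a : ℝ) ^ 2) * Y * (1 / (1 - r)) :=
          mul_le_mul_of_nonneg_left hgeo (by positivity)
        linarith
    _ = ε * k * M.card := by ring

end Pool.Agent.Helper60.GT
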