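import Pool.Agent.Helper60.GP.Spec
import Pool.Agent.Helper60.GT.Geo

/-!
# Module P1: the main lemma with a free density parameter

Adapt `Pool/Agent/Helper60/GT/Main.lean`: `hS : StSamp` with `b := β`,
`ξ = 1/(160 b^2 2^β)`, `q = θ δ`, `x f = ξ θ^(b - typ f)`, `x f q^(typ f) = ξ θ^b δ^(typ f)`.
Degrees (`hD`, `Λ = 4 b δ/θ^(b-1)`): `k ξ θ^b T = 2^β`; `b (ξ θ^(b-1) Λ/δ) = 4 b^2 ξ ≤ 1`;
`b k ξ θ^(b-1) δ^(a-1) = b 2^β δ^(a-1)/(T θ) ≤ b/(40*2^β) ≤ 1` (`b ≤ 2^β`); `b^2 ξ ≤ 1`; more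
precisely the last three sum to at most `1/40 + 1/40 + 1/160 ≤ 1`, total `≤ 2^β + 1 ≤ 2*2^β`.
Codegrees: five terms, each `≤ 1/(40*2^β)` as in `Main.lean`.
Conclusion `β/(128*2^β) * ξ θ^b * wt ≤ θ δ |M|`, and `2^β/(ξ θ^b) = k T`.
-/

set_option autoImplicit false

open Finset

namespace Pool.Agent.Helper60.GT

private theorem main_arith2 (k a b β : ℕ) (ξ θ δ T B : ℝ) (ha : 2 ≤ a) (hb : 2 ≤ b)
    (hβ : 1 ≤ β) (hbβ : b ≤ 2 ^ β) (hB : B = 2 ^ β) (hξ : ξ = 1 / (160 * (b : ℝ) ^ 2 * 2 ^ β))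
    (hθ : 0 < θ) (hθ1 : θ ≤ 1) (hδ : 0 < δ) (hδ1 : δ ≤ 1) (hT : 0 < T)
    (h1 : k * ξ * T * θ ^ b = B) (h2 : (40 : ℝ) * 4 ^ β ≤ k)
    (h3 : 40 * 4 ^ β * δ ^ (a - 1) ≤ T * θ) :
    ξ * θ ^ b * T ≤ 1 / (40 * B) ∧
    ξ * θ ^ (b - 1) * (4 * b * δ / θ ^ (b - 1)) / δ = 4 * b * ξ ∧
    k * (ξ * θ ^ b * δ ^ a) ≤ 1 / (40 * B) ∧
    k * (ξ * θ ^ (b - 1) * δ ^ (a - 1)) ≤ 1 / (40 * B) ∧
    4 * b * ξ ≤ 1 / (40 * B) ∧ (b : ℝ) ^ 2 * ξ = 1 / (160 * B) ∧ (b : ℝ) ≤ B ∧ 2 ≤ B := by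
  have hB4 : 2 ≤ B := by
    rw [hB]
    calc (2 : ℝ) = 2 ^ 1 := by norm_num
      _ ≤ 2 ^ β := pow_le_pow_right₀ (by norm_num) hβ
  have hB0 : 0 < B := by linarith
  have hb0 : (0 : ℝ) < b := by
    have : 0 < b := by omega
    exact_mod_cast this
  have hb2 : (2 : ℝ) ≤ b := by exact_mod_cast hb
  have hbB : (b : ℝ) ≤ B := by
    rw [hB]
    exact_mod_cast hbβ
  have h4 : (4 : ℝ) ^ β = B * B := by
    rw [hB, ← mul_pow]
    norm_num
  have hξ' : ξ = 1 / (160 * (b : ℝ) ^ 2 * B) := by rw [hξ, hB]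
  have hξ0 : 0 < ξ := by
    rw [hξ']
    positivity
  have hk0 : (0 : ℝ) < k := lt_of_lt_of_le (by positivity) h2
  have hθb : θ ^ b = θ ^ (b - 1) * θ := by
    rw [← pow_succ]
    congr 1
    omega
  have hδa : δ ^ a = δ ^ (a - 1) * δ := by
    rw [← pow_succ]
    congr 1
    omega
  have hE0 : 0 < ξ * θ ^ (b - 1) := by positivity
  have hD0 : 0 < δ ^ (a - 1) := by positivity
  -- the fourth inequality
  have e4 : k * (ξ * θ ^ (b - 1) * δ ^ (a - 1)) ≤ 1 / (40 * B) := by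
    rw [le_div_iff₀ (by positivity)]
    refine le_of_mul_le_mul_right ?_ hB0
    have : k * (ξ * θ ^ (b - 1)) * (40 * 4 ^ β * δ ^ (a - 1)) ≤
        k * (ξ * θ ^ (b - 1)) * (T * θ) := mul_le_mul_of_nonneg_left h3 (by positivity)
    have e : k * (ξ * θ ^ (b - 1)) * (T * θ) = B := by
      rw [← h1, hθb]
      ring
    rw [e, h4] at this
    linarith
  refine ⟨?_, ?_, ?_, e4, ?_, ?_, hbB, hB4⟩
  · -- `ξ θ^b T = B / k`
    rw [le_div_iff₀ (by positivity)]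
    refine le_of_mul_le_mul_right ?_ hB0
    have : ξ * θ ^ b * T * (40 * 4 ^ β) ≤ ξ * θ ^ b * T * k :=
      mul_le_mul_of_nonneg_left h2 (by positivity)
    have e : ξ * θ ^ b * T * k = B := by
      rw [← h1]
      ring
    rw [e, h4] at this
    linarith
  · field_simp
  · refine le_trans ?_ e4
    refine mul_le_mul_of_nonneg_left ?_ hk0.le
    rw [hθb, hδa]
    have h5 : θ ^ (b - 1) * θ ≤ θ ^ (b - 1) := mul_le_of_le_one_right (by positivity) hθ1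
    have h6 : δ ^ (a - 1) * δ ≤ δ ^ (a - 1) := mul_le_of_le_one_right (by positivity) hδ1
    exact mul_le_mul (mul_le_mul_of_nonneg_left h5 hξ0.le) h6 (by positivity) hE0.le
  · rw [hξ', le_div_iff₀ (by positivity)]
    have : 4 * (b : ℝ) * (1 / (160 * (b : ℝ) ^ 2 * B)) * (40 * B) = 1 / b := by
      field_simp
      norm_num
    rw [this, div_le_one hb0]
    linarith
  · rw [hξ']
    field_simp

theorem main2 (hS : StSamp) (hD : StDeg) (hC : StCod) : StMain2 := by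
  intro V _ k a b β H M F θ δ T hk ha hab hβ hbβ hH hMax hF htyp hθ hθ1 hδ hδ1 hT h1 h2 h3 hL1 hL2
  have hb : 2 ≤ b := ha.trans hab
  set ξ : ℝ := 1 / (160 * (b : ℝ) ^ 2 * 2 ^ β) with hξ
  have hb0 : (0 : ℝ) < b := by
    have : 0 < b := by omega
    exact_mod_cast this
  have hξ0 : 0 < ξ := by
    rw [hξ]
    positivity
  obtain ⟨a1, a2, a3, a4, a5, a6, a7, a8⟩ := main_arith2 k a b β ξ θ δ T (2 ^ β) ha hb hβ hbβ rfl hξ hθ
    hθ1 hδ hδ1 hT h1 h2 h3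
  have hB0 : (0 : ℝ) < 2 ^ β := by positivity
  have hξ1 : ξ ≤ 1 := by
    have h5 : 4 * (b : ℝ) * ξ ≤ 1 := by
      refine a5.trans ?_
      rw [div_le_one (by positivity)]
      linarith
    have h6 : (1 : ℝ) ≤ b := by
      have : 1 ≤ b := by omega
      exact_mod_cast this
    nlinarith
  have hMk : ∀ m ∈ M, m.card = k := fun m hm => hH m (hMax.1.1 hm)
  have hMp : ∀ m ∈ M, ∀ m' ∈ M, m ≠ m' → (m ∩ m').card < k - 1 := hMax.1.2
  have hFk : ∀ f ∈ F, f.card = k ∧ f ∉ M ∧ a ≤ typ k M f ∧ typ k M f ≤ b := by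
    intro f hf
    have h5 := mem_sdiff.mp (hF hf)
    exact ⟨hH f h5.1, h5.2, htyp f hf⟩
  have hΛ : 0 ≤ 4 * b * δ / θ ^ (b - 1) := by positivity
  have hx : ∀ f ∈ F, ξ * θ ^ (b - typ k M f) * (θ * δ) ^ (nbr k M f).card =
      ξ * θ ^ b * δ ^ typ k M f := by
    intro f hf
    have h5 := (htyp f hf).2
    have h6 : (nbr k M f).card = typ k M f := rfl
    have h7 : θ ^ b = θ ^ (b - typ k M f) * θ ^ typ k M f := by
      rw [← pow_add, Nat.sub_add_cancel h5]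
    rw [h6, h7, mul_pow]
    ring
  have key := hS (Finset V) (Finset V) F M (nbr k M) (Adj k) β (θ * δ)
    (fun f => ξ * θ ^ (b - typ k M f)) (fun f g h => Adj.symm h) (fun f => Adj.irrefl f)
    (by positivity) (mul_le_one₀ hθ1 hδ.le hδ1) ?_ ?_ ?_ ?_ ?_
  · -- conclusion
    have e1 : ∑ f ∈ F, ξ * θ ^ (b - typ k M f) * (θ * δ) ^ (nbr k M f).card =
        ξ * θ ^ b * wt k M F δ := by
      unfold wt
      rw [mul_sum]
      exact sum_congr rfl hx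
    rw [e1] at key
    -- multiply by `128 k T / β`
    have h5 : (β : ℝ) / (128 * 2 ^ β) * (ξ * θ ^ b * wt k M F δ) * (128 * k * T / β) =
        (k * ξ * T * θ ^ b) * wt k M F δ / 2 ^ β := by
      field_simp
    have h6 : (β : ℝ) / (128 * 2 ^ β) * (ξ * θ ^ b * wt k M F δ) * (128 * k * T / β) ≤
        θ * δ * M.card * (128 * k * T / β) := mul_le_mul_of_nonneg_right key (by positivity)
    rw [h5, h1] at h6
    have h7 : (2 : ℝ) ^ β * wt k M F δ / 2 ^ β = wt k M F δ := by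
      field_simp
    rw [h7] at h6
    refine h6.trans (le_of_eq ?_)
    ring
  · intro f hf
    refine ⟨by positivity, ?_⟩
    exact mul_le_one₀ hξ1 (by positivity) (pow_le_one₀ hθ.le hθ1)
  · intro f _
    exact filter_subset _ _
  · intro M₀ hM₀ P hP hind hN
    exact exchange hMax hM₀ (hP.trans hF) hind hN
  · intro f hf
    have e1 : ∑ g ∈ F.filter (fun g => Adj k f g), ξ * θ ^ (b - typ k M g) *
        (θ * δ) ^ (nbr k M g).card / (θ * δ) ^ (nbr k M f ∩ nbr k M g).card =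
        ∑ g ∈ F.filter (fun g => Adj k f g), ξ * θ ^ b * δ ^ typ k M g /
          (θ * δ) ^ (nbr k M f ∩ nbr k M g).card := by
      refine sum_congr rfl fun g hg => ?_
      rw [hx g (mem_filter.mp hg).1]
    refine (le_of_eq e1).trans ?_
    refine (hD V k a b M F ξ θ δ T (4 * b * δ / θ ^ (b - 1)) hk ha hab hMk hMp hFk hξ0 hθ hθ1
      hδ hδ1 hT.le hΛ hL1 hL2 f hf).trans ?_
    rw [a2, a6]
    have t1 : (k : ℝ) * (ξ * θ ^ b * T) = 2 ^ β := by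
      rw [← h1]
      ring
    have t2 : (b : ℝ) * (4 * b * ξ) ≤ 1 / 40 := by
      have : (b : ℝ) * (4 * b * ξ) = 4 * ((b : ℝ) ^ 2 * ξ) := by ring
      rw [this, a6]
      rw [mul_one_div, div_le_div_iff₀ (by positivity) (by norm_num)]
      linarith
    have t3 : (b : ℝ) * k * (ξ * θ ^ (b - 1) * δ ^ (a - 1)) ≤ 1 / 40 := by
      have e : (b : ℝ) * k * (ξ * θ ^ (b - 1) * δ ^ (a - 1)) =
          b * (k * (ξ * θ ^ (b - 1) * δ ^ (a - 1))) := by ring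
      rw [e]
      refine (mul_le_mul_of_nonneg_left a4 hb0.le).trans ?_
      rw [mul_one_div, div_le_div_iff₀ (by positivity) (by norm_num)]
      linarith
    have t4 : 1 / (160 * (2 : ℝ) ^ β) ≤ 1 / 40 := by
      rw [div_le_div_iff₀ (by positivity) (by norm_num)]
      linarith
    linarith
  · intro f hf g hg hfg
    have e1 : ∑ h ∈ F.filter (fun h => Adj k f h ∧ Adj k g h), ξ * θ ^ (b - typ k M h) *
        (θ * δ) ^ (nbr k M h).card / (θ * δ) ^ (nbr k M h ∩ (nbr k M f ∪ nbr k M g)).card =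
        ∑ h ∈ F.filter (fun h => Adj k f h ∧ Adj k g h), ξ * θ ^ b * δ ^ typ k M h /
          (θ * δ) ^ (nbr k M h ∩ (nbr k M f ∪ nbr k M g)).card := by
      refine sum_congr rfl fun h hh => ?_
      rw [hx h (mem_filter.mp hh).1]
    refine (le_of_eq e1).trans ?_
    refine (hC V k a b M F ξ θ δ T (4 * b * δ / θ ^ (b - 1)) hk ha hab hMk hMp hFk hξ0 hθ hθ1
      hδ hδ1 hT.le hΛ hL1 hL2 f hf g hg hfg).trans ?_
    rw [a2]
    have e : (1 : ℝ) / (8 * 2 ^ β) = 5 * (1 / (40 * 2 ^ β)) := by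
      field_simp
      norm_num
    rw [e]
    linarith

end Pool.Agent.Helper60.GT
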