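import Pool.Agent.Helper60.GP.Spec
import Pool.Agent.Helper60.GT.Geo

/-!
# Module P8: a random subset of the ridges under `M`

`I ⊆ shadow k M` random, each ridge with probability `d` independently, `R = shadow k M \ I`.
`E|R| = (1-d) k |M|` (`card_shadow`). `f` contains no member of `R` iff `tr k M f ⊆ I`, probability
`d^(typ f)` (`card_tr`). Average over the subsets `I` with weights
`d^|I| (1-d)^(|shadow| - |I|)` (the Bernoulli lemmas `bw_nonneg`, `bw_incl` of
`Pool/Agent/Helper60/GT/Samp.lean` are private: copy them; `∑ weights = 1`).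
-/

set_option autoImplicit false

open Finset

namespace Pool.Agent.Helper60.GT

/-- weight of the outcome `Y` -/
private noncomputable def bwr {α : Type} [DecidableEq α] (X : Finset α) (p : ℝ)
    (Y : Finset α) : ℝ := (∏ _i ∈ Y, p) * ∏ _i ∈ X \ Y, (1 - p)

private theorem bwr_nonneg {α : Type} [DecidableEq α] (X : Finset α) (p : ℝ)
    (h0 : 0 ≤ p) (h1 : p ≤ 1) (Y : Finset α) : 0 ≤ bwr X p Y := by
  unfold bwr
  exact mul_nonneg (prod_nonneg fun i _ => h0) (prod_nonneg fun i _ => by linarith)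

private theorem bwr_incl {α : Type} [DecidableEq α] (X : Finset α) (p : ℝ)
    {S : Finset α} (hS : S ⊆ X) :
    ∑ Y ∈ X.powerset, bwr X p Y * (if S ⊆ Y then (1 : ℝ) else 0) = p ^ S.card := by
  have h1 := prod_add (fun _ => p) (fun i => if i ∈ S then (0 : ℝ) else 1 - p) X
  have h2 : ∏ i ∈ X, (p + (if i ∈ S then (0 : ℝ) else 1 - p)) = p ^ S.card := by
    rw [← prod_const, ← prod_subset hS]
    · refine prod_congr rfl fun i hi => ?_
      rw [if_pos hi, add_zero]
    · intro i _ hi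
      rw [if_neg hi]
      ring
  rw [← h2, h1]
  refine sum_congr rfl fun Y hY => ?_
  unfold bwr
  by_cases h : S ⊆ Y
  · rw [if_pos h, mul_one]
    congr 1
    refine prod_congr rfl fun i hi => ?_
    rw [if_neg fun h3 => (mem_sdiff.1 hi).2 (h h3)]
  · rw [if_neg h, mul_zero]
    obtain ⟨i, hi, hiY⟩ := not_subset.1 h
    have h4 : ∏ i ∈ X \ Y, (if i ∈ S then (0 : ℝ) else 1 - p) = 0 :=
      prod_eq_zero (mem_sdiff.2 ⟨hS hi, hiY⟩) (if_pos hi)
    rw [h4, mul_zero]

theorem rand : StRand := by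
  intro V _ k H M F d hk hH hMax hF hd0 hd1
  have hM : ∀ m ∈ M, m.card = k := fun m hm => hH m (hMax.1.1 hm)
  have hP := hMax.1.2
  set X := shadow k M with hX
  have hone : ∑ Y ∈ X.powerset, bwr X d Y = 1 := by
    have h := bwr_incl X d (empty_subset X)
    simpa using h
  -- the expected number of ridges of the complement
  have hE1 : ∑ Y ∈ X.powerset, bwr X d Y * ((X \ Y).card : ℝ) = (1 - d) * k * M.card := by
    have h1 : ∀ Y ∈ X.powerset, bwr X d Y * ((X \ Y).card : ℝ) =
        ∑ S ∈ X, (bwr X d Y - bwr X d Y * (if {S} ⊆ Y then (1 : ℝ) else 0)) := by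
      intro Y hY
      rw [sum_sub_distrib, ← mul_sum, sum_const, nsmul_eq_mul]
      have h2 : ∑ S ∈ X, (if {S} ⊆ Y then (1 : ℝ) else 0) = Y.card := by
        rw [← sum_filter, sum_const, nsmul_eq_mul, mul_one]
        congr 2
        ext S
        rw [mem_filter, singleton_subset_iff]
        exact ⟨fun h => h.2, fun h => ⟨mem_powerset.1 hY h, h⟩⟩
      have h3 : (X \ Y).card + Y.card = X.card := card_sdiff_add_card_eq_card (mem_powerset.1 hY)
      have h4 : ((X \ Y).card : ℝ) = X.card - Y.card := by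
        rw [← h3]; push_cast; ring
      rw [h2, h4]
      ring
    rw [sum_congr rfl h1, sum_comm]
    have h5 : ∀ S ∈ X, ∑ Y ∈ X.powerset,
        (bwr X d Y - bwr X d Y * (if {S} ⊆ Y then (1 : ℝ) else 0)) = 1 - d := by
      intro S hS
      rw [sum_sub_distrib, hone, bwr_incl X d (singleton_subset_iff.2 hS)]
      simp
    rw [sum_congr rfl h5, sum_const, nsmul_eq_mul, hX, card_shadow (by omega) hM hP]
    push_cast
    ring
  -- the event for one edge
  have hev : ∀ f ∈ F, ∀ Y ∈ X.powerset,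
      ((∀ S ∈ X \ Y, ¬ S ⊆ f) ↔ tr k M f ⊆ Y) := by
    intro f hf Y _
    constructor
    · intro h S hS
      rw [tr, mem_filter, mem_powersetCard] at hS
      by_contra hc
      exact h S (mem_sdiff.2 ⟨hX ▸ mem_shadow.2 ⟨hS.1.2, hS.2⟩, hc⟩) hS.1.1
    · intro h S hS hSf
      rw [mem_sdiff, hX, mem_shadow] at hS
      apply hS.2
      apply h
      rw [tr, mem_filter, mem_powersetCard]
      exact ⟨⟨hSf, hS.1.1⟩, hS.1.2⟩
  have hE2 : ∑ Y ∈ X.powerset, bwr X d Y *
      ((F.filter (fun f => ∀ S ∈ X \ Y, ¬ S ⊆ f)).card : ℝ) = wt k M F d := by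
    have h1 : ∀ Y ∈ X.powerset, bwr X d Y *
        ((F.filter (fun f => ∀ S ∈ X \ Y, ¬ S ⊆ f)).card : ℝ) =
        ∑ f ∈ F, bwr X d Y * (if tr k M f ⊆ Y then (1 : ℝ) else 0) := by
      intro Y hY
      rw [← mul_sum, ← sum_filter, sum_const, nsmul_eq_mul, mul_one]
      congr 3
      exact filter_congr fun f hf => hev f hf Y hY
    rw [sum_congr rfl h1, sum_comm]
    unfold wt
    refine sum_congr rfl fun f hf => ?_
    have hf' := mem_sdiff.1 (hF hf)
    have hsub : tr k M f ⊆ X := by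
      intro S hS
      rw [tr, mem_filter, mem_powersetCard] at hS
      exact hX ▸ mem_shadow.2 ⟨hS.1.2, hS.2⟩
    rw [bwr_incl X d hsub, card_tr (by omega) hM hP (hH f hf'.1) hf'.2]
  by_contra hcon
  push Not at hcon
  have hlt : ∀ Y ∈ X.powerset, (1 - d) * k * M.card + wt k M F d <
      ((X \ Y).card : ℝ) + ((F.filter (fun f => ∀ S ∈ X \ Y, ¬ S ⊆ f)).card : ℝ) :=
    fun Y _ => hcon (X \ Y) sdiff_subset
  have hsum : ∑ Y ∈ X.powerset, bwr X d Y *
      ((((X \ Y).card : ℝ) + ((F.filter (fun f => ∀ S ∈ X \ Y, ¬ S ⊆ f)).card : ℝ)) -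
        ((1 - d) * k * M.card + wt k M F d)) = 0 := by
    have h : ∀ Y ∈ X.powerset, bwr X d Y *
        ((((X \ Y).card : ℝ) + ((F.filter (fun f => ∀ S ∈ X \ Y, ¬ S ⊆ f)).card : ℝ)) -
          ((1 - d) * k * M.card + wt k M F d)) =
        bwr X d Y * ((X \ Y).card : ℝ) + bwr X d Y *
          ((F.filter (fun f => ∀ S ∈ X \ Y, ¬ S ⊆ f)).card : ℝ) -
          bwr X d Y * ((1 - d) * k * M.card + wt k M F d) := by
      intro Y _
      ring
    rw [sum_congr rfl h, sum_sub_distrib, sum_add_distrib, hE1, hE2, ← sum_mul, hone]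
    ring
  have hz := (sum_eq_zero_iff_of_nonneg (fun Y hY => mul_nonneg (bwr_nonneg X d hd0 hd1 Y)
    (by linarith [hlt Y hY]))).1 hsum
  have hw : ∀ Y ∈ X.powerset, bwr X d Y = 0 := by
    intro Y hY
    rcases mul_eq_zero.1 (hz Y hY) with h | h
    · exact h
    · linarith [hlt Y hY]
  rw [sum_eq_zero hw] at hone
  exact zero_ne_one hone

end Pool.Agent.Helper60.GT
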