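import Pool.Agent.Helper60.GP.Spec
import Pool.Agent.Helper60.GT.Geo

/-!
# Module P2: one scale

Adapt `Pool/Agent/Helper60/GT/Step.lean`. `|U| Λ/2 ≤ b wt G₁`, `Λ/2 = 2 b δ/θ^(b-1)`, so
`|U| ≤ (64/β) k T θ^b |M| = (64/β) 2^β * 160 b^2 2^β |M| ≤ 10240 b^2 4^β |M|` (`β ≥ 1`).
-/

set_option autoImplicit false

open Finset

namespace Pool.Agent.Helper60.GT

theorem step2 (hM : StMain2) (hC : StCap) (hG : StGreedy) (hH : StHub) : StStep2 := by
  intro V _ k a b β H M F θ δ T hk ha hab hβ hbβ hHk hMP hFs hty hθ hθ1 hδ hδ1 hT hkT hk4 hδT hload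
  classical
  have hb2 : 2 ≤ b := ha.trans hab
  have hbR : (2 : ℝ) ≤ b := by exact_mod_cast hb2
  have hb0 : (0 : ℝ) < b := by linarith
  have hθb : 0 < θ ^ (b - 1) := by positivity
  have hθb1 : θ ^ (b - 1) ≤ 1 := pow_le_one₀ hθ.le hθ1
  set Λ : ℝ := 4 * b * δ / θ ^ (b - 1) with hΛ
  have hΛ0 : 0 < Λ := by positivity
  have hΛδ : δ ≤ Λ / 2 := by
    have h1 : 4 * b * δ ≤ Λ := by
      rw [hΛ, le_div_iff₀ hθb]
      have : 0 ≤ 4 * b * δ := by positivity
      nlinarith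
    nlinarith
  have hMk : ∀ m ∈ M, m.card = k := fun m hm => hHk m (hMP.1.1 hm)
  have hMM : ∀ m ∈ M, ∀ m' ∈ M, m ≠ m' → (m ∩ m').card < k - 1 := hMP.1.2
  obtain ⟨G₁, hG₁F, hcap, hviol⟩ := hC V k M F δ (fun R => if Under M R then Λ else T) hδ.le
    (by
      intro R
      split_ifs
      · exact hΛ0.le
      · exact hT.le)
  have hcap1 : ∀ R : Finset V, R.card = k - 1 → ¬ Under M R → load k M G₁ δ R ≤ T := by
    intro R hR hU
    have := hcap R hR
    rwa [if_neg hU] at this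
  have hcap2 : ∀ R : Finset V, R.card = k - 1 → Under M R → load k M G₁ δ R ≤ Λ := by
    intro R hR hU
    have := hcap R hR
    rwa [if_pos hU] at this
  have hmain := hM V k a b β H M G₁ θ δ T hk ha hab hβ hbβ hHk hMP (hG₁F.trans hFs)
    (fun f hf => hty f (hG₁F hf)) hθ hθ1 hδ hδ1 hT hkT hk4 hδT hcap1 hcap2
  obtain ⟨G, hGG, C, hC1, hGload, hGC, hCw⟩ := hG V k M G₁ δ (T / 2) hδ.le (by linarith)
  set U : Finset (Finset V) := (shadow k M).filter (fun S => Λ / 2 ≤ load k M G₁ δ S) with hU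
  have hUcard : ∀ S ∈ U, S.card = k - 1 ∧ Λ / 2 ≤ load k M G₁ δ S := by
    intro S hS
    rw [hU, mem_filter] at hS
    refine ⟨?_, hS.2⟩
    have h1 := hS.1
    unfold shadow at h1
    rw [mem_biUnion] at h1
    obtain ⟨m, _, h2⟩ := h1
    exact (mem_powersetCard.1 h2).2
  have hUund : ∀ S ∈ U, Under M S := by
    intro S hS
    rw [hU, mem_filter] at hS
    have h1 := hS.1
    unfold shadow at h1
    rw [mem_biUnion] at h1
    obtain ⟨m, hm, h2⟩ := h1
    exact ⟨m, hm, (mem_powersetCard.1 h2).1⟩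
  have hβR : (1 : ℝ) ≤ β := by exact_mod_cast hβ
  have hβ0 : (0 : ℝ) < β := by linarith
  have hkey : (k : ℝ) * T * θ ^ b = 160 * (b : ℝ) ^ 2 * 2 ^ β * 2 ^ β := by
    have h1 : (k : ℝ) * (1 / (160 * (b : ℝ) ^ 2 * 2 ^ β)) * T * θ ^ b *
        (160 * (b : ℝ) ^ 2 * 2 ^ β) = 2 ^ β * (160 * (b : ℝ) ^ 2 * 2 ^ β) := by rw [hkT]
    have h2 : (k : ℝ) * (1 / (160 * (b : ℝ) ^ 2 * 2 ^ β)) * T * θ ^ b *
        (160 * (b : ℝ) ^ 2 * 2 ^ β) = (k : ℝ) * T * θ ^ b := by
      field_simp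
    rw [h2] at h1
    rw [h1]
    ring
  have hθpow : θ ^ b = θ ^ (b - 1) * θ := by
    rw [← pow_succ]
    congr 1
    omega
  refine ⟨G, hGG.trans hG₁F, U, C, filter_subset _ _, hC1, ?_, hGload, ?_, ?_, ?_⟩
  · intro f hf hfG
    by_cases hf1 : f ∈ G₁
    · exact Or.inr (hGC f hf1 hfG)
    · left
      obtain ⟨R, hRf, hRk, hR⟩ := hviol f hf hf1
      have hUR : Under M R := by
        by_contra hnU
        rw [if_neg hnU] at hR
        have h1 : load k M G₁ δ R + δ ^ typ k M f ≤ load k M F δ R := by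
          unfold load
          have h2 : insert f (G₁.filter (fun f => R ⊆ f)) ⊆ F.filter (fun f => R ⊆ f) := by
            intro g hg
            rcases mem_insert.1 hg with rfl | hg
            · exact mem_filter.2 ⟨hf, hRf⟩
            · exact mem_filter.2 ⟨hG₁F (mem_filter.1 hg).1, (mem_filter.1 hg).2⟩
          have h3 := sum_le_sum_of_subset_of_nonneg h2
            (f := fun f => δ ^ typ k M f) (fun i _ _ => by positivity)
          rw [sum_insert (by simp [hf1])] at h3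
          linarith
        have h4 := hload R hRk hnU
        linarith
      rw [if_pos hUR] at hR
      refine ⟨R, ?_, hRf⟩
      rw [hU, mem_filter]
      constructor
      · obtain ⟨m, hm, hRm⟩ := hUR
        unfold shadow
        rw [mem_biUnion]
        exact ⟨m, hm, mem_powersetCard.2 ⟨hRm, hRk⟩⟩
      · have h5 : δ ^ typ k M f ≤ δ := by
          have h6 : 1 ≤ typ k M f := by
            have := (hty f hf).1
            omega
          calc δ ^ typ k M f ≤ δ ^ 1 := pow_le_pow_of_le_one hδ.le hδ1 h6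
            _ = δ := pow_one δ
        linarith
  · refine le_trans ?_ hmain
    unfold wt
    exact sum_le_sum_of_subset_of_nonneg hGG (fun i _ _ => by positivity)
  · have h1 := (hH V k b M G₁ U δ (Λ / 2) hk hδ.le hMk hMM (fun f hf => by
      have h2 := hFs (hG₁F hf)
      rw [mem_sdiff] at h2
      exact ⟨hHk f h2.1, h2.2, (hty f (hG₁F hf)).2⟩) hUcard).2 hUund
    have h2 : (U.card : ℝ) * (Λ / 2) ≤ b * (128 / β * δ * k * T * θ * M.card) :=
      h1.trans (mul_le_mul_of_nonneg_left hmain hb0.le)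
    have h3 : (b : ℝ) * (128 / β * δ * k * T * θ * M.card) =
        (1 / β * (10240 * (b : ℝ) ^ 2 * 4 ^ β * M.card)) * (Λ / 2) := by
      have h4 : (4 : ℝ) ^ β = 2 ^ β * 2 ^ β := by
        rw [← mul_pow]
        norm_num
      have h5 : (1 / β * (10240 * (b : ℝ) ^ 2 * 4 ^ β * M.card)) * (Λ / 2) * θ ^ (b - 1) =
          b * (128 / β) * δ * (160 * (b : ℝ) ^ 2 * 2 ^ β * 2 ^ β) * M.card := by
        rw [hΛ, h4]
        field_simp
        ring
      have h6 : (b : ℝ) * (128 / β * δ * k * T * θ * M.card) * θ ^ (b - 1) =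
          b * (128 / β) * δ * ((k : ℝ) * T * θ ^ b) * M.card := by
        rw [hθpow]
        field_simp
      rw [← hkey] at h5
      exact mul_right_cancel₀ hθb.ne' (h6.trans h5.symm)
    rw [h3] at h2
    have h7 : (U.card : ℝ) ≤ 1 / β * (10240 * (b : ℝ) ^ 2 * 4 ^ β * M.card) :=
      le_of_mul_le_mul_right h2 (by linarith)
    refine h7.trans ?_
    have h8 : 1 / (β : ℝ) ≤ 1 := by
      rw [div_le_one hβ0]
      exact hβR
    have h9 : (0 : ℝ) ≤ 10240 * (b : ℝ) ^ 2 * 4 ^ β * M.card := by positivity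
    calc 1 / (β : ℝ) * (10240 * (b : ℝ) ^ 2 * 4 ^ β * M.card)
        ≤ 1 * (10240 * (b : ℝ) ^ 2 * 4 ^ β * M.card) := mul_le_mul_of_nonneg_right h8 h9
      _ = 10240 * (b : ℝ) ^ 2 * 4 ^ β * M.card := one_mul _
  · have h1 : (C.card : ℝ) * (T / 2) ≤ (256 / β * δ * k * θ * M.card) * (T / 2) := by
      refine hCw.trans (hmain.trans (le_of_eq ?_))
      ring
    exact le_of_mul_le_mul_right h1 (by linarith)

end Pool.Agent.Helper60.GT
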