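import Pool.Agent.Helper60.GP.Spec
import Pool.Agent.Helper60.GT.Types

/-!
# Module P5: all types between `a₀` and `J`

`L = log (1/d) > 0`. Windows `a = a₀ 2^i ≤ J`, `b = 2a - 1`, `β = ⌊a L/(2 log 4)⌋₊`; for `a ≥ a₀`
(`a₀` large depending on `d`) `β ≥ 1`, `β ≥ a L/(4 log 4)`, `b ≤ 2^β`; `4^β ≤ d^(-a/2)`.
`θ₀ = (4 b^2/(k d^(a-1)))^(1/(b-1))`; for `k` large, uniformly in `a ≤ J ≤ ε₀ log k`,
`4 b^2 d^(-a) ≤ 16 J^2 k^(L ε₀) ≤ √k` (if `L ε₀ ≤ 1/4`), so `θ₀ ≤ exp(-log k/(2(b-1)))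
≤ 2(b-1)/log k` and `θ₀ ≤ 1`, `40*4^β ≤ k`. Sums over the windows:
`|C| ≤ 513 (8 log 4/L) k |M| ∑ θ₀ ≤ 513 (8 log 4/L) (8 J/log k) k |M| ≤ ε k |M|` for
`ε₀` small; `|U| ≤ J (2J clog + 2)(40960 J^2 k^(L ε₀/2))|M| ≤ ε k |M|` for `k` large;
`wt ≤ 5120 k |M| ∑_i d^(a₀ 2^i/2) ≤ ε k |M|` for `a₀` large (`4^β d^a ≤ d^(a/2)`). The windows
cover `[a₀, J]`. If `J < a₀` the family is empty.
-/

set_option autoImplicit false

open Finset

namespace Pool.Agent.Helper60.GT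

lemma ty2_log4 : 0 < Real.log 4 ∧ Real.log 4 ≤ 2 ∧ Real.log 4 = 2 * Real.log 2 := by
  have h4 : Real.log 4 = 2 * Real.log 2 := by
    rw [show (4 : ℝ) = 2 ^ 2 by norm_num, Real.log_pow]; norm_num
  have h1 := Real.log_two_gt_d9
  have h2 := Real.log_two_lt_d9
  refine ⟨?_, ?_, h4⟩ <;> rw [h4] <;> linarith

lemma ty2_beta {lam : ℝ} (hl : 0 < lam) {a : ℕ} (h1 : 4 / lam ≤ a)
    (h2 : 256 / lam ^ 2 ≤ a) :
    ∃ β : ℕ, 1 ≤ β ∧ 2 * a ≤ 2 ^ β ∧ (a : ℝ) / β ≤ 8 / lam ∧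
      (4 : ℝ) ^ β ≤ Real.exp (a * lam / 2) := by
  obtain ⟨hq0, hq2, hq⟩ := ty2_log4
  have hl2 : 0 < Real.log 2 := by linarith
  have ha4 : 4 ≤ a * lam := by
    rw [div_le_iff₀ hl] at h1; exact h1
  have ha0 : (0 : ℝ) < a := by
    have : 0 < 4 / lam := by positivity
    linarith
  set x : ℝ := a * lam / (2 * Real.log 4) with hx
  have hx1 : 1 ≤ x := by
    rw [hx, le_div_iff₀ (by positivity)]
    linarith
  have hβ1 : 1 ≤ ⌊x⌋₊ := by
    rw [Nat.one_le_floor_iff]; exact hx1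
  have hβx : (⌊x⌋₊ : ℝ) ≤ x := Nat.floor_le (by linarith)
  have hxβ : x < ⌊x⌋₊ + 1 := Nat.lt_floor_add_one x
  have hβ1' : (1 : ℝ) ≤ (⌊x⌋₊ : ℝ) := by exact_mod_cast hβ1
  have hx2 : x ≤ 2 * (⌊x⌋₊ : ℝ) := by linarith
  have hxl : x * Real.log 4 = a * lam / 2 := by
    rw [hx]; field_simp
  refine ⟨⌊x⌋₊, hβ1, ?_, ?_, ?_⟩
  · have e1 : (2 : ℝ) ^ ⌊x⌋₊ = Real.exp (⌊x⌋₊ * Real.log 2) := by
      rw [Real.exp_nat_mul, Real.exp_log (by norm_num)]
    have e2 : (a : ℝ) * lam / 8 ≤ ⌊x⌋₊ * Real.log 2 := by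
      have h3 : x / 2 * Real.log 2 ≤ ⌊x⌋₊ * Real.log 2 :=
        mul_le_mul_of_nonneg_right (by linarith) hl2.le
      have h4 : x / 2 * Real.log 2 = a * lam / 8 := by
        have : x * Real.log 2 = a * lam / 4 := by
          rw [hq] at hxl; linarith
        linarith
      linarith
    have e3 : ((a : ℝ) * lam / 8) ^ 2 / 2 ≤ Real.exp (a * lam / 8) := by
      have := Real.pow_div_factorial_le_exp (a * lam / 8) (by positivity) 2
      norm_num [Nat.factorial] at this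
      exact this
    have e4 : 2 * (a : ℝ) ≤ ((a : ℝ) * lam / 8) ^ 2 / 2 := by
      rw [div_le_iff₀ (by positivity)] at h2
      have : ((a : ℝ) * lam / 8) ^ 2 / 2 = a * (a * lam ^ 2) / 128 := by ring
      rw [this, le_div_iff₀ (by norm_num)]
      nlinarith
    have e5 : 2 * (a : ℝ) ≤ (2 : ℝ) ^ ⌊x⌋₊ := by
      rw [e1]
      exact le_trans e4 (le_trans e3 (Real.exp_le_exp.mpr e2))
    exact_mod_cast e5
  · rw [div_le_iff₀ (by linarith)]
    have : (a : ℝ) = 2 * Real.log 4 / lam * x := by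
      rw [hx]; field_simp
    calc (a : ℝ) = 2 * Real.log 4 / lam * x := this
      _ ≤ 2 * 2 / lam * (2 * (⌊x⌋₊ : ℝ)) := by
        apply mul_le_mul _ hx2 (by linarith) (by positivity)
        apply div_le_div_of_nonneg_right _ hl.le
        linarith
      _ = 8 / lam * ⌊x⌋₊ := by ring
  · have e1 : (4 : ℝ) ^ ⌊x⌋₊ = Real.exp (⌊x⌋₊ * Real.log 4) := by
      rw [Real.exp_nat_mul, Real.exp_log (by norm_num)]
    rw [e1, ← hxl]
    exact Real.exp_le_exp.mpr (mul_le_mul_of_nonneg_right hβx hq0.le)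

lemma ty2_theta {k a b : ℕ} {L lam d : ℝ} (hk : (k : ℝ) = Real.exp L) (hL0 : 0 < L)
    (hd : d = Real.exp (-lam)) (hlam : 0 < lam) (hb : b + 1 = 2 * a) (ha : 2 ≤ a)
    (haL : a * lam ≤ L / 4) (haL' : (a : ℝ) ≤ L) (hbig : 16 * L ^ 2 ≤ Real.exp (L / 4)) :
    ∃ θ : ℝ, 0 < θ ∧ θ ≤ 1 ∧ k * d ^ (a - 1) * θ ^ (b - 1) = 4 * (b : ℝ) ^ 2 ∧
      θ ≤ 4 * a / L := by
  have hkpos : (0 : ℝ) < k := by rw [hk]; exact Real.exp_pos _
  have hd0 : 0 < d := by rw [hd]; exact Real.exp_pos _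
  have hb3 : 3 ≤ b := by omega
  have hbr : (b : ℝ) + 1 = 2 * a := by exact_mod_cast hb
  have hb3r : (3 : ℝ) ≤ b := by exact_mod_cast hb3
  have hb1 : (0 : ℝ) < (b : ℝ) - 1 := by linarith
  have hcast : ((b - 1 : ℕ) : ℝ) = (b : ℝ) - 1 := by
    rw [Nat.cast_sub (by omega)]; norm_num
  have hda : Real.exp (-(L / 4)) ≤ d ^ (a - 1) := by
    rw [hd, ← Real.exp_nat_mul]
    apply Real.exp_le_exp.mpr
    have h1 : ((a - 1 : ℕ) : ℝ) ≤ a := by exact_mod_cast Nat.sub_le a 1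
    have h2 : ((a - 1 : ℕ) : ℝ) * lam ≤ a * lam := mul_le_mul_of_nonneg_right h1 hlam.le
    linarith
  set x : ℝ := 4 * (b : ℝ) ^ 2 / (k * d ^ (a - 1)) with hx
  have hxpos : 0 < x := by rw [hx]; positivity
  have hxle : x ≤ Real.exp (-(L / 2)) := by
    rw [hx, div_le_iff₀ (by positivity)]
    have h1 : 4 * (b : ℝ) ^ 2 ≤ Real.exp (L / 4) := by
      refine le_trans ?_ hbig
      have h2 : (b : ℝ) ≤ 2 * L := by linarith
      have h3 : (b : ℝ) ^ 2 ≤ (2 * L) ^ 2 := pow_le_pow_left₀ (by positivity) h2 2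
      nlinarith
    have h4 : Real.exp (L / 4) = Real.exp (-(L / 2)) * (k * Real.exp (-(L / 4))) := by
      rw [hk, ← Real.exp_add, ← Real.exp_add]; congr 1; ring
    rw [h4] at h1
    refine le_trans h1 ?_
    apply mul_le_mul_of_nonneg_left _ (Real.exp_pos _).le
    exact mul_le_mul_of_nonneg_left hda hkpos.le
  have hlog : Real.log x ≤ -(L / 2) := by
    rw [Real.log_le_iff_le_exp hxpos]; exact hxle
  refine ⟨Real.exp (Real.log x / ((b : ℝ) - 1)), Real.exp_pos _, ?_, ?_, ?_⟩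
  · rw [Real.exp_le_one_iff]
    apply div_nonpos_of_nonpos_of_nonneg
    · linarith
    · linarith
  · rw [← Real.exp_nat_mul, hcast, mul_div_cancel₀ _ (ne_of_gt hb1), Real.exp_log hxpos, hx]
    field_simp
  · have hy : Real.log x / ((b : ℝ) - 1) ≤ -(L / (2 * ((b : ℝ) - 1))) := by
      rw [div_le_iff₀ hb1]
      have : -(L / (2 * ((b : ℝ) - 1))) * ((b : ℝ) - 1) = -(L / 2) := by
        field_simp
      rw [this]; exact hlog
    refine le_trans (Real.exp_le_exp.mpr hy) ?_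
    have hypos : 0 < L / (2 * ((b : ℝ) - 1)) := by positivity
    rw [Real.exp_neg]
    have h1 : L / (2 * ((b : ℝ) - 1)) ≤ Real.exp (L / (2 * ((b : ℝ) - 1))) := by
      have := Real.add_one_le_exp (L / (2 * ((b : ℝ) - 1)))
      linarith
    calc (Real.exp (L / (2 * ((b : ℝ) - 1))))⁻¹ ≤ (L / (2 * ((b : ℝ) - 1)))⁻¹ :=
          inv_anti₀ hypos h1
      _ = 2 * ((b : ℝ) - 1) / L := by rw [inv_div]
      _ ≤ 4 * a / L := by
        apply div_le_div_of_nonneg_right _ hL0.le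
        linarith

lemma ty2_big {L ε : ℝ} (hε : 0 < ε) (hL : 6144 + 327680 * 46080 / ε ≤ L) :
    9 ≤ L ∧ 16 * L ^ 2 ≤ Real.exp (L / 4) ∧
      327680 * L ^ 5 * Real.exp (L / 8) ≤ ε * Real.exp L := by
  have hpos : 0 < 327680 * 46080 / ε := by positivity
  have hL1 : 6144 ≤ L := by linarith
  have hL0 : 0 < L := by linarith
  refine ⟨by linarith, ?_, ?_⟩
  · have h1 := Real.pow_div_factorial_le_exp (L / 4) (by linarith) 3
    have h2 : (Nat.factorial 3 : ℝ) = 6 := by norm_num [Nat.factorial]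
    rw [h2] at h1
    refine le_trans ?_ h1
    have h3 : (L / 4) ^ 3 / 6 = L ^ 2 * (L / 384) := by ring
    rw [h3]
    have h4 : 0 ≤ L ^ 2 := by positivity
    have h5 : (16 : ℝ) ≤ L / 384 := by
      rw [le_div_iff₀ (by norm_num)]; linarith
    nlinarith [mul_le_mul_of_nonneg_left h5 h4]
  · have h1 := Real.pow_div_factorial_le_exp (L / 2) (by linarith) 6
    have h2 : (Nat.factorial 6 : ℝ) = 720 := by norm_num [Nat.factorial]
    rw [h2] at h1
    have h3 : (L / 2) ^ 6 / 720 = L ^ 5 * (L / 46080) := by ring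
    rw [h3] at h1
    have h4 : 327680 ≤ ε * (L / 46080) := by
      have h5 : 327680 * 46080 / ε ≤ L := by linarith
      rw [div_le_iff₀ hε] at h5
      have : ε * (L / 46080) = L * ε / 46080 := by ring
      rw [this, le_div_iff₀ (by norm_num)]
      linarith
    have h5 : 327680 * L ^ 5 ≤ ε * Real.exp (L / 2) := by
      calc 327680 * L ^ 5 ≤ ε * (L / 46080) * L ^ 5 :=
            mul_le_mul_of_nonneg_right h4 (by positivity)
        _ = ε * (L ^ 5 * (L / 46080)) := by ring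
        _ ≤ ε * Real.exp (L / 2) := mul_le_mul_of_nonneg_left h1 hε.le
    calc 327680 * L ^ 5 * Real.exp (L / 8) ≤ ε * Real.exp (L / 2) * Real.exp (L / 8) :=
          mul_le_mul_of_nonneg_right h5 (Real.exp_pos _).le
      _ = ε * Real.exp (L / 2 + L / 8) := by rw [mul_assoc, ← Real.exp_add]
      _ ≤ ε * Real.exp L := by
        apply mul_le_mul_of_nonneg_left _ hε.le
        apply Real.exp_le_exp.mpr
        linarith

lemma ty2_geo {r : ℝ} (h0 : 0 ≤ r) (h1 : r ≤ 1 / 2) (I : ℕ) :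
    ∑ i ∈ range I, r ^ (i + 1) ≤ 2 * r := by
  have h : ∑ i ∈ range I, r ^ (i + 1) ≤ r * ∑ i ∈ range I, (1 / 2 : ℝ) ^ i := by
    rw [mul_sum]
    apply sum_le_sum
    intro i _
    rw [pow_succ, mul_comm]
    exact mul_le_mul_of_nonneg_left (pow_le_pow_left₀ h0 h1 i) h0
  have h2 : ∀ n : ℕ, ∑ i ∈ range n, (1 / 2 : ℝ) ^ i = 2 * (1 - (1 / 2) ^ n) := by
    intro n
    induction n with
    | zero => norm_num
    | succ n ih => rw [sum_range_succ, ih]; ring
  rw [h2] at h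
  have h3 : (0 : ℝ) ≤ (1 / 2) ^ I := by positivity
  nlinarith

lemma ty2_sum_two (I : ℕ) : ∑ i ∈ range I, (2 : ℝ) ^ i = 2 ^ I - 1 := by
  induction I with
  | zero => norm_num
  | succ n ih => rw [sum_range_succ, ih]; ring

lemma ty2_succ_le (i : ℕ) : i + 1 ≤ 2 ^ i := by
  induction i with
  | zero => norm_num
  | succ n ih =>
    have : 2 ^ (n + 1) = 2 * 2 ^ n := by ring
    omega

lemma ty2_a0 {lam ε : ℝ} (hl : 0 < lam) (hε : 0 < ε) :
    ∃ a₀ : ℕ, 2 ≤ a₀ ∧ (∀ a : ℕ, a₀ ≤ a → ∃ β : ℕ, 1 ≤ β ∧ 2 * a ≤ 2 ^ β ∧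
      (a : ℝ) / β ≤ 8 / lam ∧ (4 : ℝ) ^ β ≤ Real.exp (a * lam / 2)) ∧
      Real.exp (-(a₀ * lam / 2)) ≤ 1 / 2 ∧ 10240 * Real.exp (-(a₀ * lam / 2)) ≤ ε := by
  obtain ⟨a₀, ha₀⟩ : ∃ a₀ : ℕ, a₀ = ⌈2 + 4 / lam + 256 / lam ^ 2 + 20480 / (lam * ε)⌉₊ :=
    ⟨_, rfl⟩
  have hp1 : 0 < 4 / lam := by positivity
  have hp2 : 0 < 256 / lam ^ 2 := by positivity
  have hp3 : 0 < 20480 / (lam * ε) := by positivity
  have haa : 2 + 4 / lam + 256 / lam ^ 2 + 20480 / (lam * ε) ≤ a₀ := by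
    rw [ha₀]; exact Nat.le_ceil _
  have ha2 : (2 : ℝ) ≤ a₀ := by linarith
  have ha2' : 2 ≤ a₀ := by exact_mod_cast ha2
  have hr1 : Real.exp (-(a₀ * lam / 2)) ≤ 2 / (a₀ * lam) := by
    have hy : 0 < (a₀ : ℝ) * lam / 2 := by positivity
    rw [Real.exp_neg]
    have h1 : (a₀ : ℝ) * lam / 2 ≤ Real.exp (a₀ * lam / 2) := by
      have := Real.add_one_le_exp ((a₀ : ℝ) * lam / 2)
      linarith
    calc (Real.exp (a₀ * lam / 2))⁻¹ ≤ ((a₀ : ℝ) * lam / 2)⁻¹ := inv_anti₀ hy h1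
      _ = 2 / (a₀ * lam) := by rw [inv_div]
  refine ⟨a₀, ha2', ?_, ?_, ?_⟩
  · intro a ha
    have har : (a₀ : ℝ) ≤ a := by exact_mod_cast ha
    exact ty2_beta hl (by linarith) (by linarith)
  · refine le_trans hr1 ?_
    have h1 : 4 / lam ≤ a₀ := by linarith
    rw [div_le_iff₀ hl] at h1
    rw [div_le_iff₀ (by positivity)]
    linarith
  · have h1 : 20480 / (lam * ε) ≤ a₀ := by linarith
    rw [div_le_iff₀ (by positivity)] at h1
    calc 10240 * Real.exp (-(a₀ * lam / 2)) ≤ 10240 * (2 / (a₀ * lam)) := by linarith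
      _ = 20480 / (a₀ * lam) := by ring
      _ ≤ ε := by
        rw [div_le_iff₀ (by positivity)]
        linarith

/-- A wrapper for the largeness assumptions. -/
def Ty2Big (L ε : ℝ) : Prop := 327680 * L ^ 5 * Real.exp (L / 8) ≤ ε * Real.exp L

lemma ty2_k0 {ε : ℝ} (hε : 0 < ε) : ∃ k₀ : ℕ, ∀ k : ℕ, k₀ ≤ k →
    9 ≤ Real.log k ∧ 16 * Real.log k ^ 2 ≤ Real.exp (Real.log k / 4) ∧
      Ty2Big (Real.log k) ε ∧ (k : ℝ) = Real.exp (Real.log k) := by
  refine ⟨⌈Real.exp (6144 + 327680 * 46080 / ε)⌉₊, ?_⟩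
  intro k hk
  have hkE : Real.exp (6144 + 327680 * 46080 / ε) ≤ k :=
    le_trans (Nat.le_ceil _) (by exact_mod_cast hk)
  have hkpos : (0 : ℝ) < k := lt_of_lt_of_le (Real.exp_pos _) hkE
  have hL : 6144 + 327680 * 46080 / ε ≤ Real.log k := by
    rw [Real.le_log_iff_exp_le hkpos]; exact hkE
  obtain ⟨hL9, hbig, hbigU⟩ := ty2_big hε hL
  exact ⟨hL9, hbig, hbigU, (Real.exp_log hkpos).symm⟩

theorem types2 (hW : StWindow2) : StTypes2 := by
  classical
  intro d ε hd0 hd1 hε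
  obtain ⟨lam, hlam⟩ : ∃ lam : ℝ, lam = -Real.log d := ⟨_, rfl⟩
  have hlam0 : 0 < lam := by
    have := Real.log_neg hd0 hd1
    linarith
  have hdl : d = Real.exp (-lam) := by
    rw [hlam, neg_neg, Real.exp_log hd0]
  clear hlam
  obtain ⟨a₀, ha2', hβa, hr2, hr3⟩ := ty2_a0 hlam0 hε
  obtain ⟨k₀, hk₀⟩ := ty2_k0 hε
  refine ⟨a₀, ha2', min (min (1 / (4 * lam)) (ε * lam / 65664)) 1, ?_, k₀, ?_⟩
  · refine lt_min (lt_min ?_ ?_) one_pos <;> positivity
  intro k hk J hJ V _ H M hH hM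
  obtain ⟨hL9, hbig, hbigU, hkL⟩ := hk₀ k hk
  obtain ⟨L, hLdef⟩ : ∃ L : ℝ, L = Real.log k := ⟨_, rfl⟩
  rw [← hLdef] at hJ hL9 hbig hbigU hkL
  have hL0 : 0 < L := by linarith
  clear hk hLdef hk₀
  have hkpos : (0 : ℝ) < k := by rw [hkL]; exact Real.exp_pos _
  have hk2 : 2 ≤ k := by
    have h1 : (2 : ℝ) ≤ k := by
      rw [hkL]
      have := Real.add_one_le_exp L
      linarith
    exact_mod_cast h1
  have hMc : (0 : ℝ) ≤ (M.card : ℝ) := by positivity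
  -- the bounds on J
  have hJ1 : (J : ℝ) ≤ L := by
    refine le_trans hJ ?_
    calc min (min (1 / (4 * lam)) (ε * lam / 65664)) 1 * L ≤ 1 * L :=
          mul_le_mul_of_nonneg_right (min_le_right _ _) hL0.le
      _ = L := one_mul L
  have hJ2 : (J : ℝ) * lam ≤ L / 4 := by
    have h1 : (J : ℝ) ≤ 1 / (4 * lam) * L := le_trans hJ
      (mul_le_mul_of_nonneg_right (le_trans (min_le_left _ _) (min_le_left _ _)) hL0.le)
    calc (J : ℝ) * lam ≤ 1 / (4 * lam) * L * lam := mul_le_mul_of_nonneg_right h1 hlam0.le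
      _ = L / 4 := by field_simp
  have hJ3 : (J : ℝ) ≤ ε * lam / 65664 * L := le_trans hJ
    (mul_le_mul_of_nonneg_right (le_trans (min_le_left _ _) (min_le_right _ _)) hL0.le)
  clear hJ
  rcases Nat.lt_or_ge J a₀ with hJa | hJa
  · refine ⟨∅, ∅, by simp, by simp, ?_, ?_, ?_⟩
    · simp only [card_empty, Nat.cast_zero]; positivity
    · simp only [card_empty, Nat.cast_zero]; positivity
    · have : ((H \ M).filter (fun f => (a₀ ≤ typ k M f ∧ typ k M f ≤ J) ∧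
          (∀ S ∈ (∅ : Finset (Finset V)), ¬ S ⊆ f) ∧
          ∀ R ∈ (∅ : Finset (Finset V)), ¬ R ⊆ f)) = ∅ := by
        apply filter_eq_empty_iff.mpr
        rintro f - ⟨⟨h1, h2⟩, -⟩
        omega
      rw [this]
      simp only [wt, sum_empty]
      positivity
  have ha₀pos : 0 < a₀ := by omega
  have hdivpos : J / a₀ ≠ 0 := by
    have := Nat.div_pos hJa ha₀pos
    omega
  set r : ℝ := Real.exp (-(a₀ * lam / 2)) with hr
  have hr0 : 0 < r := Real.exp_pos _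
  -- the windows
  set I := Nat.log 2 (J / a₀) + 1 with hI
  have hpow : ∀ i, i < I → a₀ * 2 ^ i ≤ J := by
    intro i hi
    have h1 : 2 ^ i ≤ 2 ^ Nat.log 2 (J / a₀) := Nat.pow_le_pow_right (by norm_num) (by omega)
    have h2 : 2 ^ Nat.log 2 (J / a₀) ≤ J / a₀ := Nat.pow_log_le_self 2 hdivpos
    calc a₀ * 2 ^ i ≤ a₀ * (J / a₀) := Nat.mul_le_mul_left _ (le_trans h1 h2)
      _ ≤ J := Nat.mul_div_le J a₀
  have key : ∀ i, i < I → ∃ U C : Finset (Finset V), U ⊆ shadow k M ∧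
      (∀ R ∈ C, R.card = k - 1) ∧
      (U.card : ℝ) ≤ 327680 * L ^ 4 * Real.exp (L / 8) * M.card ∧
      (C.card : ℝ) ≤ 32832 / lam * k * (a₀ * 2 ^ i / L) * M.card ∧
      wt k M ((H \ M).filter (fun f => (a₀ * 2 ^ i ≤ typ k M f ∧
        typ k M f ≤ 2 * (a₀ * 2 ^ i) - 1) ∧ (∀ S ∈ U, ¬ S ⊆ f) ∧ ∀ R ∈ C, ¬ R ⊆ f)) d ≤
          5120 * r ^ (i + 1) * k * M.card := by
    intro i hi
    have hJi := hpow i hi
    have h2i := ty2_succ_le i
    have haa₀ : a₀ ≤ a₀ * 2 ^ i := Nat.le_mul_of_pos_right _ (by positivity)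
    have hai : a₀ * (i + 1) ≤ a₀ * 2 ^ i := Nat.mul_le_mul_left _ h2i
    have hcastA : ((a₀ * 2 ^ i : ℕ) : ℝ) = a₀ * 2 ^ i := by push_cast; ring
    obtain ⟨a, ha⟩ : ∃ a : ℕ, a = a₀ * 2 ^ i := ⟨_, rfl⟩
    rw [← ha] at hJi haa₀ hai hcastA
    rw [← hcastA, ← ha]
    have haJ : (a : ℝ) ≤ J := by exact_mod_cast hJi
    have haL : (a : ℝ) ≤ L := le_trans haJ hJ1
    have halam : (a : ℝ) * lam ≤ L / 4 :=
      le_trans (mul_le_mul_of_nonneg_right haJ hlam0.le) hJ2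
    have haa₀r : (a₀ : ℝ) ≤ a := by exact_mod_cast haa₀
    have ha0 : (0 : ℝ) < a := by
      have : 0 < a := by omega
      exact_mod_cast this
    obtain ⟨β, hβ1, hβ2, hβ3, hβ4⟩ := hβa a haa₀
    obtain ⟨b, hb⟩ : ∃ b : ℕ, b = 2 * a - 1 := ⟨_, rfl⟩
    rw [← hb]
    have hbr : (b : ℝ) ≤ 2 * a := by
      have : b ≤ 2 * a := by omega
      exact_mod_cast this
    obtain ⟨θ, hθ0, hθ1, hθe, hθL⟩ := ty2_theta (b := b) hkL hL0 hdl hlam0 (by omega)
      (by omega) halam haL hbig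
    have hβ1r : (1 : ℝ) ≤ β := by exact_mod_cast hβ1
    have h4β : (4 : ℝ) ^ β ≤ Real.exp (L / 8) := by
      refine le_trans hβ4 (Real.exp_le_exp.mpr ?_)
      linarith
    have h40 : (40 : ℝ) * 4 ^ β ≤ k := by
      have h1 : (40 : ℝ) ≤ Real.exp (L / 4) := by
        refine le_trans ?_ hbig
        nlinarith
      calc (40 : ℝ) * 4 ^ β ≤ Real.exp (L / 4) * Real.exp (L / 8) :=
            mul_le_mul h1 h4β (by positivity) (Real.exp_pos _).le
        _ = Real.exp (L / 4 + L / 8) := by rw [← Real.exp_add]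
        _ ≤ k := by
          rw [hkL]
          apply Real.exp_le_exp.mpr
          linarith
    obtain ⟨U, C, hU, hC, hUc, hCc, hwt⟩ := hW V k a b β H M d θ hk2 (by omega) (by omega)
      hβ1 (by omega) hH hM hd0 hd1.le hθ0 hθ1 hθe h40
    refine ⟨U, C, hU, hC, le_trans hUc ?_, le_trans hCc ?_, le_trans hwt ?_⟩
    · apply mul_le_mul_of_nonneg_right _ hMc
      have hcl := ty_clog hkL hL9
      have hbL : (b : ℝ) ≤ 2 * L := by linarith
      have hb0 : (0 : ℝ) ≤ b := by positivity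
      have hc0 : (0 : ℝ) ≤ (Nat.clog 2 (256 * k) : ℝ) := by positivity
      have h1 : (b : ℝ) * (Nat.clog 2 (256 * k) : ℝ) + 2 ≤ 8 * L ^ 2 := by
        have := mul_le_mul hbL hcl hc0 (by positivity)
        nlinarith
      have h2 : 10240 * (b : ℝ) ^ 2 * 4 ^ β ≤ 10240 * (2 * L) ^ 2 * Real.exp (L / 8) := by
        apply mul_le_mul _ h4β (by positivity) (by positivity)
        have := pow_le_pow_left₀ hb0 hbL 2
        linarith
      calc ((b : ℝ) * (Nat.clog 2 (256 * k) : ℝ) + 2) * (10240 * (b : ℝ) ^ 2 * 4 ^ β) ≤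
          (8 * L ^ 2) * (10240 * (2 * L) ^ 2 * Real.exp (L / 8)) :=
            mul_le_mul h1 h2 (by positivity) (by positivity)
        _ = 327680 * L ^ 4 * Real.exp (L / 8) := by ring
    · apply mul_le_mul_of_nonneg_right _ hMc
      have h1 : (b : ℝ) / β ≤ 16 / lam := by
        calc (b : ℝ) / β ≤ 2 * a / β := div_le_div_of_nonneg_right hbr (by linarith)
          _ = 2 * (a / β) := by ring
          _ ≤ 2 * (8 / lam) := by linarith
          _ = 16 / lam := by ring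
      calc 513 * ((b : ℝ) / β) * k * θ ≤ 513 * (16 / lam) * k * (4 * a / L) := by
            apply mul_le_mul _ hθL hθ0.le (by positivity)
            apply mul_le_mul_of_nonneg_right _ hkpos.le
            linarith
        _ = 32832 / lam * k * (a / L) := by ring
    · apply mul_le_mul_of_nonneg_right _ hMc
      apply mul_le_mul_of_nonneg_right _ hkpos.le
      have h1 : 5120 / (β : ℝ) ≤ 5120 := by
        rw [div_le_iff₀ (by linarith)]
        linarith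
      have h2 : (4 : ℝ) ^ β * d ^ a ≤ r ^ (i + 1) := by
        have h3 : d ^ a = Real.exp (-(a * lam)) := by
          rw [hdl, ← Real.exp_nat_mul]; congr 1; ring
        have h4 : r ^ (i + 1) = Real.exp (-((a₀ * (i + 1) : ℕ) * lam / 2)) := by
          rw [hr, ← Real.exp_nat_mul]; congr 1; push_cast; ring
        have h5 : ((a₀ * (i + 1) : ℕ) : ℝ) * lam ≤ a * lam := by
          apply mul_le_mul_of_nonneg_right _ hlam0.le
          exact_mod_cast hai
        rw [h3, h4]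
        calc (4 : ℝ) ^ β * Real.exp (-(a * lam)) ≤
            Real.exp (a * lam / 2) * Real.exp (-(a * lam)) :=
              mul_le_mul_of_nonneg_right hβ4 (Real.exp_pos _).le
          _ = Real.exp (a * lam / 2 + -(a * lam)) := by rw [← Real.exp_add]
          _ ≤ _ := by
            apply Real.exp_le_exp.mpr
            linarith
      calc 5120 / (β : ℝ) * 4 ^ β * d ^ a = 5120 / (β : ℝ) * (4 ^ β * d ^ a) := by ring
        _ ≤ 5120 * r ^ (i + 1) := mul_le_mul h1 h2 (by positivity) (by norm_num)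
  choose! U C hU hC hUc hCc hwt using key
  have hIJ : (I : ℝ) ≤ L := by
    have h1 : Nat.log 2 (J / a₀) < J / a₀ := Nat.log_lt_self 2 hdivpos
    have h2 : J / a₀ ≤ J := Nat.div_le_self J a₀
    have : I ≤ J := by omega
    have : (I : ℝ) ≤ J := by exact_mod_cast this
    linarith
  refine ⟨(range I).biUnion U, (range I).biUnion C, ?_, ?_, ?_, ?_, ?_⟩
  · intro S hS
    rw [mem_biUnion] at hS
    obtain ⟨i, hi, hS⟩ := hS
    exact hU i (mem_range.mp hi) hS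
  · intro R hR
    rw [mem_biUnion] at hR
    obtain ⟨i, hi, hR⟩ := hR
    exact hC i (mem_range.mp hi) R hR
  · have h1 : (((range I).biUnion U).card : ℝ) ≤ ∑ i ∈ range I, ((U i).card : ℝ) := by
      exact_mod_cast card_biUnion_le
    have h2 : ∑ i ∈ range I, ((U i).card : ℝ) ≤
        ∑ i ∈ range I, 327680 * L ^ 4 * Real.exp (L / 8) * M.card :=
      sum_le_sum (fun i hi => hUc i (mem_range.mp hi))
    rw [sum_const, card_range, nsmul_eq_mul] at h2
    have h3 : (I : ℝ) * (327680 * L ^ 4 * Real.exp (L / 8) * M.card) ≤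
        (327680 * L ^ 5 * Real.exp (L / 8)) * M.card := by
      calc (I : ℝ) * (327680 * L ^ 4 * Real.exp (L / 8) * M.card) ≤
          L * (327680 * L ^ 4 * Real.exp (L / 8) * M.card) :=
            mul_le_mul_of_nonneg_right hIJ (by positivity)
        _ = _ := by ring
    have h7 := mul_le_mul_of_nonneg_right hbigU hMc
    rw [← hkL] at h7
    linarith
  · have h1 : (((range I).biUnion C).card : ℝ) ≤ ∑ i ∈ range I, ((C i).card : ℝ) := by
      exact_mod_cast card_biUnion_le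
    have h2 : ∑ i ∈ range I, ((C i).card : ℝ) ≤
        ∑ i ∈ range I, 32832 / lam * k * (a₀ * 2 ^ i / L) * M.card :=
      sum_le_sum (fun i hi => hCc i (mem_range.mp hi))
    have h3 : ∑ i ∈ range I, 32832 / lam * k * (a₀ * 2 ^ i / L) * (M.card : ℝ) =
        (32832 / lam * k / L * M.card) * (a₀ * ∑ i ∈ range I, (2 : ℝ) ^ i) := by
      rw [mul_sum, mul_sum]
      apply sum_congr rfl
      intro i _
      ring
    have h4 : (a₀ : ℝ) * 2 ^ I ≤ 2 * J := by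
      have h5 := hpow (I - 1) (by omega)
      have h6 : a₀ * 2 ^ I = 2 * (a₀ * 2 ^ (I - 1)) := by
        rw [hI, Nat.add_sub_cancel, pow_succ]; ring
      have h7 : a₀ * 2 ^ I ≤ 2 * J := by omega
      exact_mod_cast h7
    rw [h3, ty2_sum_two] at h2
    have h5 : (a₀ : ℝ) * (2 ^ I - 1) ≤ 2 * (ε * lam / 65664 * L) := by
      have : (0 : ℝ) ≤ a₀ := by positivity
      nlinarith
    have h6 : (32832 / lam * k / L * M.card) * ((a₀ : ℝ) * (2 ^ I - 1)) ≤
        (32832 / lam * k / L * M.card) * (2 * (ε * lam / 65664 * L)) :=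
      mul_le_mul_of_nonneg_left h5 (by positivity)
    have h7 : (32832 / lam * k / L * M.card) * (2 * (ε * lam / 65664 * L)) =
        ε * k * M.card := by
      field_simp
      ring
    linarith
  · have hsub : ((H \ M).filter (fun f => (a₀ ≤ typ k M f ∧ typ k M f ≤ J) ∧
          (∀ S ∈ (range I).biUnion U, ¬ S ⊆ f) ∧
          ∀ R ∈ (range I).biUnion C, ¬ R ⊆ f)) ⊆
        (range I).biUnion (fun i => (H \ M).filter (fun f => (a₀ * 2 ^ i ≤ typ k M f ∧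
          typ k M f ≤ 2 * (a₀ * 2 ^ i) - 1) ∧
            (∀ S ∈ U i, ¬ S ⊆ f) ∧ ∀ R ∈ C i, ¬ R ⊆ f)) := by
      intro f hf
      rw [mem_filter] at hf
      obtain ⟨hfH, ⟨h2, hfJ⟩, hfU, hfC⟩ := hf
      rw [mem_biUnion]
      have hq0 : typ k M f / a₀ ≠ 0 := by
        have := Nat.div_pos h2 ha₀pos
        omega
      have hl2 : Nat.log 2 (typ k M f / a₀) ≤ Nat.log 2 (J / a₀) :=
        Nat.log_mono_right (Nat.div_le_div_right hfJ)
      have hp1 : 2 ^ Nat.log 2 (typ k M f / a₀) ≤ typ k M f / a₀ :=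
        Nat.pow_log_le_self 2 hq0
      have hp2 : typ k M f / a₀ < 2 ^ (Nat.log 2 (typ k M f / a₀) + 1) :=
        Nat.lt_pow_succ_log_self (by norm_num) _
      obtain ⟨i, hi⟩ : ∃ i, Nat.log 2 (typ k M f / a₀) = i := ⟨_, rfl⟩
      rw [hi] at hp1 hp2 hl2
      have hiI : i ∈ range I := mem_range.mpr (by omega)
      have hq1 : a₀ * 2 ^ i ≤ typ k M f := by
        calc a₀ * 2 ^ i ≤ a₀ * (typ k M f / a₀) := Nat.mul_le_mul_left _ hp1
          _ ≤ typ k M f := Nat.mul_div_le _ _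
      have hq2 : typ k M f < 2 * (a₀ * 2 ^ i) := by
        rw [Nat.div_lt_iff_lt_mul ha₀pos] at hp2
        have : 2 ^ (i + 1) * a₀ = 2 * (a₀ * 2 ^ i) := by ring
        omega
      refine ⟨i, hiI, ?_⟩
      rw [mem_filter]
      refine ⟨hfH, ⟨hq1, by omega⟩, ?_, ?_⟩
      · intro S hS
        exact hfU S (mem_biUnion.mpr ⟨i, hiI, hS⟩)
      · intro R hR
        exact hfC R (mem_biUnion.mpr ⟨i, hiI, hR⟩)
    have h1 : wt k M ((H \ M).filter (fun f => (a₀ ≤ typ k M f ∧ typ k M f ≤ J) ∧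
          (∀ S ∈ (range I).biUnion U, ¬ S ⊆ f) ∧
          ∀ R ∈ (range I).biUnion C, ¬ R ⊆ f)) d ≤
        ∑ i ∈ range I, wt k M ((H \ M).filter (fun f => (a₀ * 2 ^ i ≤ typ k M f ∧
          typ k M f ≤ 2 * (a₀ * 2 ^ i) - 1) ∧
            (∀ S ∈ U i, ¬ S ⊆ f) ∧ ∀ R ∈ C i, ¬ R ⊆ f)) d := by
      unfold wt
      refine le_trans (sum_le_sum_of_subset_of_nonneg hsub (fun f _ _ => by positivity)) ?_
      exact ty_sum_biUnion I _ (fun f => d ^ typ k M f) (fun f => by positivity)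
    refine le_trans h1 ?_
    refine le_trans (sum_le_sum (fun i hi => hwt i (mem_range.mp hi))) ?_
    have h3 : ∑ i ∈ range I, 5120 * r ^ (i + 1) * k * (M.card : ℝ) =
        (5120 * k * M.card) * ∑ i ∈ range I, r ^ (i + 1) := by
      rw [mul_sum]
      apply sum_congr rfl
      intro i _
      ring
    rw [h3]
    have h4 := mul_le_mul_of_nonneg_left (ty2_geo hr0.le hr2 I)
      (show 0 ≤ 5120 * k * (M.card : ℝ) by positivity)
    have h5 : 5120 * k * (M.card : ℝ) * (2 * r) = (10240 * r) * (k * M.card) := by ring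
    have h6 := mul_le_mul_of_nonneg_right hr3 (show 0 ≤ (k : ℝ) * (M.card : ℝ) by positivity)
    have h7 : ε * (k * (M.card : ℝ)) = ε * k * M.card := by ring
    linarith

end Pool.Agent.Helper60.GT
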