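import Pool.Agent.Helper60.GP.Spec

/-!
# Module P4: a window of types

Adapt `Pool/Agent/Helper60/GT/Window.lean`. `ξ = 1/(160 b^2 2^β)`, `ρ^b = 1/2`,
`θ i = θ₀ ρ^i`, `T i = 2^β/(k ξ (θ i)^b) = 2^i T 0`. By the hypothesis on `θ₀`
`T 0 * θ 0 = 160 b^2 4^β/(k θ₀^(b-1)) = 40 * 4^β δ^(a-1)`, and `T i * θ i = (2ρ)^i T 0 θ 0` is at
least this. `n₁ = Nat.clog 2 (256 k)`, `N = b n₁`; `hF` at index `N`, then `hS` at the indices
`N, ..., 0`. `|U| ≤ (N+2) 10240 b^2 4^β |M|`; `|C| ≤ k (256/β) δ k θ_N |M| +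
∑_{i ≤ N} (256/β) δ k θ_i |M| ≤ (b/β) (1 + 512) k θ₀ |M|` (`θ_N = θ₀/2^n₁ ≤ θ₀/(256 k)`,
`∑ ρ^i ≤ 2b`, `δ ≤ 1 ≤ b`); last `wt ≤ 128/β δ k T 0 θ 0 |M| = 5120/β 4^β δ^a k |M|`.
-/

set_option autoImplicit false

open Finset

namespace Pool.Agent.Helper60.GT

/-- The ratio of the scales. -/
lemma w2_rho (b : ℕ) (hb : 1 ≤ b) :
    ∃ ρ : ℝ, 0 < ρ ∧ ρ < 1 ∧ ρ ^ b = 1 / 2 ∧ 1 ≤ 2 * ρ ∧
      ∀ n : ℕ, ∑ i ∈ range n, ρ ^ i ≤ 2 * b := by
  have hb0 : b ≠ 0 := by omega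
  have hbR : (1 : ℝ) ≤ b := by exact_mod_cast hb
  refine ⟨(1 / 2 : ℝ) ^ ((b : ℝ)⁻¹), by positivity, ?_, ?_, ?_, ?_⟩
  · by_contra h
    push Not at h
    have h1 := Real.rpow_inv_natCast_pow (x := (1 / 2 : ℝ)) (by norm_num) hb0
    have h2 : (1 : ℝ) ≤ ((1 / 2 : ℝ) ^ ((b : ℝ)⁻¹)) ^ b := one_le_pow₀ h
    rw [h1] at h2
    norm_num at h2
  · exact Real.rpow_inv_natCast_pow (x := (1 / 2 : ℝ)) (by norm_num) hb0
  · by_contra h
    push Not at h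
    have h0 : (0 : ℝ) ≤ (1 / 2 : ℝ) ^ ((b : ℝ)⁻¹) := by positivity
    have h1 := Real.rpow_inv_natCast_pow (x := (1 / 2 : ℝ)) (by norm_num) hb0
    have h2 : ((1 / 2 : ℝ) ^ ((b : ℝ)⁻¹)) ^ b ≤ (1 / 2 : ℝ) ^ ((b : ℝ)⁻¹) :=
      pow_le_of_le_one h0 (by linarith) hb0
    rw [h1] at h2
    linarith
  · intro n
    set ρ : ℝ := (1 / 2 : ℝ) ^ ((b : ℝ)⁻¹) with hρ
    have h0 : (0 : ℝ) ≤ ρ := by positivity
    have h1 : ρ ^ b = 1 / 2 := Real.rpow_inv_natCast_pow (x := (1 / 2 : ℝ)) (by norm_num) hb0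
    have h2 : 1 + (b : ℝ) * (ρ - 1) ≤ (1 + (ρ - 1)) ^ b :=
      one_add_mul_le_pow (by linarith) b
    have h3 : (1 + (ρ - 1)) = ρ := by ring
    rw [h3, h1] at h2
    have h4 : 1 / 2 ≤ (b : ℝ) * (1 - ρ) := by linarith
    have h5 : (∑ i ∈ range n, ρ ^ i) * (1 - ρ) = 1 - ρ ^ n := by
      have := geom_sum_mul_neg ρ n
      linarith
    have h6 : 0 < 1 - ρ := by
      by_contra h
      push Not at h
      have : (b : ℝ) * (1 - ρ) ≤ 0 := mul_nonpos_of_nonneg_of_nonpos (by linarith) h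
      linarith
    have h7 : 0 ≤ ρ ^ n := pow_nonneg h0 n
    have h8 : (∑ i ∈ range n, ρ ^ i) * (1 - ρ) ≤ (2 * b) * (1 - ρ) := by
      rw [h5]
      nlinarith
    exact le_of_mul_le_mul_right h8 h6

/-- The iteration over the scales `n, n-1, ..., 0`. -/
lemma w2_iter (hS : StStep2) {V : Type} [DecidableEq V] (k a b β : ℕ) (H M : Finset (Finset V))
    (δ : ℝ) (θ T : ℕ → ℝ) (hk : 2 ≤ k) (ha : 2 ≤ a) (hab : a ≤ b)
    (hβ : 1 ≤ β) (hbβ : b ≤ 2 ^ β)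
    (hH : ∀ e ∈ H, e.card = k) (hM : MaxPack k H M) (hδ : 0 < δ) (hδ1 : δ ≤ 1)
    (hθ : ∀ i, 0 < θ i) (hθ1 : ∀ i, θ i ≤ 1) (hT : ∀ i, 0 < T i)
    (hTT : ∀ i, T (i + 1) / 2 = T i)
    (hTθ : ∀ i, k * (1 / (160 * (b : ℝ) ^ 2 * 2 ^ β)) * T i * θ i ^ b = 2 ^ β)
    (hkb : (40 : ℝ) * 4 ^ β ≤ k)
    (hlow : ∀ i, 40 * 4 ^ β * δ ^ (a - 1) ≤ T i * θ i) (n : ℕ) :
    ∀ F : Finset (Finset V), F ⊆ H \ M → (∀ f ∈ F, a ≤ typ k M f ∧ typ k M f ≤ b) →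
    (∀ R : Finset V, R.card = k - 1 → ¬ Under M R → load k M F δ R ≤ T n) →
    ∃ G ⊆ F, ∃ U C : Finset (Finset V), U ⊆ shadow k M ∧ (∀ R ∈ C, R.card = k - 1) ∧
      (∀ f ∈ F, f ∉ G → (∃ S ∈ U, S ⊆ f) ∨ (∃ R ∈ C, R ⊆ f)) ∧
      wt k M G δ ≤ 128 / β * δ * k * T 0 * θ 0 * M.card ∧
      (U.card : ℝ) ≤ ((n : ℝ) + 1) * (10240 * (b : ℝ) ^ 2 * 4 ^ β * M.card) ∧
      (C.card : ℝ) ≤ ∑ i ∈ range (n + 1), 256 / β * δ * k * θ i * M.card := by
  induction n with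
  | zero =>
    intro F hF hty hload
    obtain ⟨G, hG, U, C, hU, hC, hcov, -, hwt, hUc, hCc⟩ :=
      hS V k a b β H M F (θ 0) δ (T 0) hk ha hab hβ hbβ hH hM hF hty (hθ 0) (hθ1 0) hδ hδ1 (hT 0)
        (hTθ 0) hkb (hlow 0) hload
    refine ⟨G, hG, U, C, hU, hC, hcov, hwt, ?_, ?_⟩
    · simpa using hUc
    · simpa using hCc
  | succ n ih =>
    intro F hF hty hload
    obtain ⟨G, hG, U, C, hU, hC, hcov, hld, -, hUc, hCc⟩ :=
      hS V k a b β H M F (θ (n + 1)) δ (T (n + 1)) hk ha hab hβ hbβ hH hM hF hty (hθ (n + 1))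
        (hθ1 (n + 1)) hδ hδ1 (hT (n + 1)) (hTθ (n + 1)) hkb (hlow (n + 1)) hload
    obtain ⟨G', hG', U', C', hU', hC', hcov', hwt', hUc', hCc'⟩ :=
      ih G (hG.trans hF) (fun f hf => hty f (hG hf))
        (fun R hR hu => (hld R hR hu).trans (le_of_eq (hTT n)))
    refine ⟨G', hG'.trans hG, U ∪ U', C ∪ C', union_subset hU hU', ?_, ?_, hwt', ?_, ?_⟩
    · intro R hR
      rcases mem_union.1 hR with h | h
      · exact hC R h
      · exact hC' R h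
    · intro f hf hfG'
      by_cases hfG : f ∈ G
      · rcases hcov' f hfG hfG' with ⟨S, hS1, hS2⟩ | ⟨R, hR1, hR2⟩
        · exact Or.inl ⟨S, mem_union_right _ hS1, hS2⟩
        · exact Or.inr ⟨R, mem_union_right _ hR1, hR2⟩
      · rcases hcov f hf hfG with ⟨S, hS1, hS2⟩ | ⟨R, hR1, hR2⟩
        · exact Or.inl ⟨S, mem_union_left _ hS1, hS2⟩
        · exact Or.inr ⟨R, mem_union_left _ hR1, hR2⟩
    · have h1 : ((U ∪ U').card : ℝ) ≤ U.card + U'.card := by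
        exact_mod_cast card_union_le U U'
      push_cast
      nlinarith
    · have h1 : ((C ∪ C').card : ℝ) ≤ C.card + C'.card := by
        exact_mod_cast card_union_le C C'
      rw [sum_range_succ]
      linarith

theorem window2 (hS : StStep2) (hF : StFirst2) : StWindow2 := by
  intro V _ k a b β H M δ θ₀ hk ha hab hβ hbβ hH hM hδ hδ1 hθ₀ hθ₀1 heq hkb
  obtain ⟨ρ, hρ0, hρ1, hρb, h2ρ, hsum⟩ := w2_rho b (by omega)
  have hb0 : (0 : ℝ) < b := by exact_mod_cast (by omega : 0 < b)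
  have hb1 : (1 : ℝ) ≤ b := by exact_mod_cast (by omega : 1 ≤ b)
  have hk0 : (0 : ℝ) < k := by exact_mod_cast (by omega : 0 < k)
  have hβ0 : (0 : ℝ) < β := by exact_mod_cast (by omega : 0 < β)
  have h2b : (0 : ℝ) < 2 ^ β := by positivity
  -- the sequences
  set η : ℝ := 40 * 4 ^ β * δ ^ (a - 1) with hη'
  have hη : 0 < η := by positivity
  let θ : ℕ → ℝ := fun i => θ₀ * ρ ^ i
  let T : ℕ → ℝ := fun i => 2 ^ i * (η / θ₀)
  have hθ : ∀ i, 0 < θ i := fun i => by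
    change 0 < θ₀ * ρ ^ i
    positivity
  have hθ1 : ∀ i, θ i ≤ 1 := fun i => by
    change θ₀ * ρ ^ i ≤ 1
    have h1 : ρ ^ i ≤ 1 := pow_le_one₀ hρ0.le hρ1.le
    have h2 : 0 ≤ ρ ^ i := pow_nonneg hρ0.le i
    nlinarith
  have hT : ∀ i, 0 < T i := fun i => by
    change 0 < 2 ^ i * (η / θ₀)
    positivity
  have hTT : ∀ i, T (i + 1) / 2 = T i := fun i => by
    change 2 ^ (i + 1) * (η / θ₀) / 2 = 2 ^ i * (η / θ₀)
    rw [pow_succ]
    ring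
  have hTθm : ∀ i, T i * θ i = (2 * ρ) ^ i * η := fun i => by
    change 2 ^ i * (η / θ₀) * (θ₀ * ρ ^ i) = (2 * ρ) ^ i * η
    rw [mul_pow]
    field_simp
  have h44 : (4 : ℝ) ^ β = 2 ^ β * 2 ^ β := by
    rw [← mul_pow]
    norm_num
  have hTθ : ∀ i, k * (1 / (160 * (b : ℝ) ^ 2 * 2 ^ β)) * T i * θ i ^ b = 2 ^ β := fun i => by
    change k * (1 / (160 * (b : ℝ) ^ 2 * 2 ^ β)) * (2 ^ i * (η / θ₀))
      * (θ₀ * ρ ^ i) ^ b = 2 ^ β
    have h1 : (θ₀ * ρ ^ i) ^ b = θ₀ ^ (b - 1) * θ₀ * (1 / 2) ^ i := by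
      rw [mul_pow, ← pow_mul, mul_comm i b, pow_mul, hρb, ← pow_succ]
      congr 2
      omega
    rw [h1]
    have h2 : (2 : ℝ) ^ i * (1 / 2) ^ i = 1 := by
      rw [← mul_pow]
      norm_num
    have h3 : k * (1 / (160 * (b : ℝ) ^ 2 * 2 ^ β)) * (2 ^ i * (η / θ₀))
        * (θ₀ ^ (b - 1) * θ₀ * (1 / 2) ^ i)
        = (2 ^ i * (1 / 2) ^ i) * (k * δ ^ (a - 1) * θ₀ ^ (b - 1))
          * (40 * 4 ^ β * (1 / (160 * (b : ℝ) ^ 2 * 2 ^ β))) := by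
      rw [hη']
      field_simp
    rw [h3, h2, heq, h44]
    field_simp
    norm_num
  have hlow' : ∀ i, 40 * 4 ^ β * δ ^ (a - 1) ≤ T i * θ i := fun i => by
    rw [hTθm, ← hη']
    have h1 : 1 ≤ (2 * ρ) ^ i := one_le_pow₀ h2ρ
    nlinarith
  -- the first step
  set n₁ : ℕ := Nat.clog 2 (256 * k) with hn₁
  have hn₁' : (256 : ℝ) * k ≤ 2 ^ n₁ := by
    have : 256 * k ≤ 2 ^ n₁ := Nat.le_pow_clog (by norm_num) _
    exact_mod_cast this
  set F₀ : Finset (Finset V) := (H \ M).filter (fun f => a ≤ typ k M f ∧ typ k M f ≤ b)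
    with hF₀
  have hF₀s : F₀ ⊆ H \ M := filter_subset _ _
  have hF₀t : ∀ f ∈ F₀, a ≤ typ k M f ∧ typ k M f ≤ b := fun f hf => (mem_filter.1 hf).2
  obtain ⟨G, hG, U, C, hU, hC, hcov, hld, hUc, hCc⟩ :=
    hF V k a b β H M F₀ (θ (b * n₁)) δ (T (b * n₁)) hk ha hab hβ hbβ hH hM hF₀s hF₀t (hθ _)
      (hθ1 _) hδ hδ1 (hT _) (hTθ _) hkb (hlow' _)
  obtain ⟨G', hG', U', C', hU', hC', hcov', hwt', hUc', hCc'⟩ :=
    w2_iter hS k a b β H M δ θ T hk ha hab hβ hbβ hH hM hδ hδ1 hθ hθ1 hT hTT hTθ hkb hlow'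
      (b * n₁) G (hG.trans hF₀s) (fun f hf => hF₀t f (hG hf)) hld
  refine ⟨U ∪ U', C ∪ C', union_subset hU hU', ?_, ?_, ?_, ?_⟩
  · intro R hR
    rcases mem_union.1 hR with h | h
    · exact hC R h
    · exact hC' R h
  · have h1 : ((U ∪ U').card : ℝ) ≤ U.card + U'.card := by
      exact_mod_cast card_union_le U U'
    have h2 : (((b * n₁ : ℕ)) : ℝ) = b * (n₁ : ℝ) := by push_cast; ring
    rw [h2] at hUc'
    nlinarith
  · have h1 : ((C ∪ C').card : ℝ) ≤ C.card + C'.card := by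
      exact_mod_cast card_union_le C C'
    have hM0 : (0 : ℝ) ≤ M.card := by positivity
    have hbβ0 : (0 : ℝ) ≤ b / β := by positivity
    have hkθ : (0 : ℝ) ≤ k * θ₀ * M.card := by positivity
    -- the first cover
    have h2 : k * (256 / β * δ * k * θ (b * n₁) * M.card) ≤ (b / β) * (k * θ₀ * M.card) := by
      have h3 : θ (b * n₁) = θ₀ * (1 / 2) ^ n₁ := by
        change θ₀ * ρ ^ (b * n₁) = _
        rw [pow_mul, hρb]
      rw [h3]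
      have h4 : (256 : ℝ) * k * (1 / 2) ^ n₁ ≤ 1 := by
        have h5 : (2 : ℝ) ^ n₁ * (1 / 2) ^ n₁ = 1 := by
          rw [← mul_pow]
          norm_num
        have h6 : (0 : ℝ) ≤ (1 / 2) ^ n₁ := by positivity
        calc (256 : ℝ) * k * (1 / 2) ^ n₁ ≤ 2 ^ n₁ * (1 / 2) ^ n₁ :=
              mul_le_mul_of_nonneg_right hn₁' h6
          _ = 1 := h5
      have h7 : k * (256 / β * δ * k * (θ₀ * (1 / 2) ^ n₁) * M.card)
          = ((256 * k * (1 / 2) ^ n₁) * δ) * (1 / β) * (k * θ₀ * M.card) := by ring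
      rw [h7]
      refine mul_le_mul_of_nonneg_right ?_ hkθ
      have h9 : (256 * k * (1 / 2) ^ n₁) * δ ≤ b := by
        have h10 : (0 : ℝ) ≤ 256 * k * (1 / 2) ^ n₁ := by positivity
        calc (256 * k * (1 / 2) ^ n₁) * δ ≤ 1 * 1 := mul_le_mul h4 hδ1 hδ.le (by norm_num)
          _ ≤ b := by linarith
      rw [div_eq_mul_one_div (b : ℝ) (β : ℝ)]
      exact mul_le_mul_of_nonneg_right h9 (by positivity)
    have h3 : ∑ i ∈ range (b * n₁ + 1), 256 / β * δ * k * θ i * M.card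
        ≤ 512 * ((b / β) * (k * θ₀ * M.card)) := by
      have h4 : ∑ i ∈ range (b * n₁ + 1), 256 / β * δ * k * θ i * M.card
          = (256 / β * δ * k * θ₀ * M.card) * ∑ i ∈ range (b * n₁ + 1), ρ ^ i := by
        rw [mul_sum]
        refine sum_congr rfl fun i _ => ?_
        change 256 / β * δ * k * (θ₀ * ρ ^ i) * M.card = _
        ring
      rw [h4]
      have h5 := hsum (b * n₁ + 1)
      have h6 : (0 : ℝ) ≤ 256 / β * δ * k * θ₀ * M.card := by positivity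
      have h7 : (0 : ℝ) ≤ (b / β) * (k * θ₀ * M.card) := by positivity
      calc (256 / β * δ * k * θ₀ * M.card) * ∑ i ∈ range (b * n₁ + 1), ρ ^ i
          ≤ (256 / β * δ * k * θ₀ * M.card) * (2 * b) := mul_le_mul_of_nonneg_left h5 h6
        _ = 512 * (((b / β) * (k * θ₀ * M.card)) * δ) := by ring
        _ ≤ 512 * (((b / β) * (k * θ₀ * M.card)) * 1) := by
            have := mul_le_mul_of_nonneg_left hδ1 h7
            linarith
        _ = 512 * ((b / β) * (k * θ₀ * M.card)) := by ring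
    have h4 : 513 * (b / β) * k * θ₀ * M.card
        = (b / β) * (k * θ₀ * M.card) + 512 * ((b / β) * (k * θ₀ * M.card)) := by ring
    rw [h4]
    linarith
  · have h0 : 128 / β * δ * k * T 0 * θ 0 * M.card
        = 5120 / β * 4 ^ β * δ ^ a * k * M.card := by
      have h1 := hTθm 0
      have h2 : 128 / β * δ * k * T 0 * θ 0 * M.card
        = 128 / β * δ * k * (T 0 * θ 0) * M.card := by ring
      have h3 : δ ^ a = δ * δ ^ (a - 1) := by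
        rw [← pow_succ']
        congr 1
        omega
      rw [h2, h1, pow_zero, hη', h3]
      ring
    rw [← h0]
    refine le_trans ?_ hwt'
    unfold wt
    refine sum_le_sum_of_subset_of_nonneg ?_ (fun f _ _ => by positivity)
    intro f hf
    obtain ⟨hf1, hf2, hf3, hf4⟩ := mem_filter.1 hf
    have hfF : f ∈ F₀ := mem_filter.2 ⟨hf1, hf2⟩
    by_contra hfG'
    have hbad : (∃ S ∈ U ∪ U', S ⊆ f) ∨ (∃ R ∈ C ∪ C', R ⊆ f) := by
      by_cases hfG : f ∈ G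
      · rcases hcov' f hfG hfG' with ⟨S, hS1, hS2⟩ | ⟨R, hR1, hR2⟩
        · exact Or.inl ⟨S, mem_union_right _ hS1, hS2⟩
        · exact Or.inr ⟨R, mem_union_right _ hR1, hR2⟩
      · rcases hcov f hfF hfG with ⟨S, hS1, hS2⟩ | ⟨R, hR1, hR2⟩
        · exact Or.inl ⟨S, mem_union_left _ hS1, hS2⟩
        · exact Or.inr ⟨R, mem_union_left _ hR1, hR2⟩
    rcases hbad with ⟨S, hS1, hS2⟩ | ⟨R, hR1, hR2⟩
    · exact hf3 S hS1 hS2
    · exact hf4 R hR1 hR2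

end Pool.Agent.Helper60.GT
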