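import Pool.Agent.Helper60.GP.Spec
import Pool.Agent.Helper60.GT.Geo

/-!
# Module P9: assembly for ridge degrees at most `k^c`

`e = min (ε/8) (1/2)`, `d = 1 - e`. `hT : StTypes2` for `(d, e)`: `a₀, ε₀, k₁`; `hL : StLow` for
`(a₀, e)`: `i₀, k₂`. `J = ⌊ε₀ log k⌋₊`, `c = min (1/2) (ε₀ log(1/d)/2)`; for `k` large
`D d^(J+1) ≤ e` and `D^2 ≤ k`. Let `U, C₁` from `hT`, `G, C₂` from `hL`. `F = (H \ M)` members of
type `≥ a₀` containing no member of `U` and of `C₁`; `hR : StRand` for `F`, `d` gives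
`R ⊆ shadow`, residual members get one ridge each. `wt F d ≤` (types `≤ J`: `e k |M|`) + (types
`> J`: `|H| d^(J+1) ≤ k |M| D d^(J+1) ≤ e k |M|`, `hN : StCount`). One ridge for each `m ∈ M`
(`|M| ≤ e k |M|` for `k ≥ 1/e`). `C` = union of all; `|C| ≤ (e + e + e + 3e + e) k |M|`, and
every `f ∈ H` outside `G` (`G` consists of members of type `< a₀`) contains a member of `C`.
-/

set_option autoImplicit false

open Finset

namespace Pool.Agent.Helper60.GT

theorem poly (hT : StTypes2) (hL : StLow) (hR : StRand) (hN : StCount) : StPoly := by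
  intro ε hε
  obtain ⟨e, he0, he2, he8⟩ : ∃ e : ℝ, 0 < e ∧ e ≤ 1 / 2 ∧ 8 * e ≤ ε :=
    ⟨min (ε / 8) (1 / 2), by positivity, min_le_right _ _, by
      have := min_le_left (ε / 8) (1 / 2); linarith⟩
  obtain ⟨d, hd⟩ : ∃ d : ℝ, d = 1 - e := ⟨_, rfl⟩
  have hd0 : 0 < d := by linarith
  have hd1 : d < 1 := by linarith
  obtain ⟨a₀, ha₀, ε₀, hε₀, k₁, hT⟩ := hT d e hd0 hd1 he0
  obtain ⟨i₀, k₂, hL⟩ := hL a₀ e he0
  have hlog : 0 < Real.log (1 / d) := Real.log_pos (by rw [lt_div_iff₀ hd0]; linarith)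
  obtain ⟨c, hc0, hc1, hc2⟩ : ∃ c : ℝ, 0 < c ∧ c ≤ 1 / 2 ∧ 2 * c ≤ ε₀ * Real.log (1 / d) :=
    ⟨min (1 / 2) (ε₀ * Real.log (1 / d) / 2), by positivity, min_le_left _ _, by
      have := min_le_right (1 / 2) (ε₀ * Real.log (1 / d) / 2); linarith⟩
  refine ⟨i₀, c, hc0, max (max k₁ k₂) (max 2 (max ⌈1 / e⌉₊ ⌈(1 / e) ^ (1 / c)⌉₊)), ?_⟩
  intro k hk D hD V _ H M hH hMax hDeg
  have hk1 : k₁ ≤ k := le_trans (le_trans (le_max_left _ _) (le_max_left _ _)) hk
  have hk2 : k₂ ≤ k := le_trans (le_trans (le_max_right _ _) (le_max_left _ _)) hk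
  have h2k : 2 ≤ k := le_trans (le_trans (le_max_left _ _) (le_max_right _ _)) hk
  have hke' : ⌈1 / e⌉₊ ≤ k :=
    le_trans (le_trans (le_trans (le_max_left _ _) (le_max_right _ _)) (le_max_right _ _)) hk
  have hkc' : ⌈(1 / e) ^ (1 / c)⌉₊ ≤ k :=
    le_trans (le_trans (le_trans (le_max_right _ _) (le_max_right _ _)) (le_max_right _ _)) hk
  have hke : 1 / e ≤ (k : ℝ) := (Nat.le_ceil _).trans (by exact_mod_cast hke')
  have hkc0 : (1 / e) ^ (1 / c) ≤ (k : ℝ) := (Nat.le_ceil _).trans (by exact_mod_cast hkc')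
  have hkR : (2 : ℝ) ≤ k := by exact_mod_cast h2k
  have hk0 : (0 : ℝ) < k := by linarith
  have hkc : 1 / e ≤ (k : ℝ) ^ c := by
    have h1 : ((1 / e) ^ (1 / c)) ^ c ≤ (k : ℝ) ^ c :=
      Real.rpow_le_rpow (by positivity) hkc0 hc0.le
    rwa [← Real.rpow_mul (by positivity), one_div_mul_cancel hc0.ne', Real.rpow_one] at h1
  have hlogk : 0 ≤ Real.log k := Real.log_nonneg (by linarith)
  -- `D ^ 2 ≤ k`
  have hD0 : (0 : ℝ) ≤ D := Nat.cast_nonneg D
  have hD2 : D ^ 2 ≤ k := by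
    have h1 : (D : ℝ) ^ 2 ≤ ((k : ℝ) ^ c) ^ 2 := by
      exact pow_le_pow_left₀ hD0 hD 2
    have h2 : ((k : ℝ) ^ c) ^ 2 ≤ k := by
      rw [← Real.rpow_natCast, ← Real.rpow_mul hk0.le]
      calc (k : ℝ) ^ (c * ((2 : ℕ) : ℝ)) ≤ (k : ℝ) ^ (1 : ℝ) := by
            apply Real.rpow_le_rpow_of_exponent_le (by linarith)
            push_cast
            linarith
        _ = k := Real.rpow_one _
    have h3 : ((D ^ 2 : ℕ) : ℝ) ≤ (k : ℝ) := by
      push_cast
      linarith
    exact_mod_cast h3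
  -- the number of types
  obtain ⟨J, hJ⟩ : ∃ J : ℕ, J = ⌊ε₀ * Real.log k⌋₊ := ⟨_, rfl⟩
  have hJ1 : (J : ℝ) ≤ ε₀ * Real.log k := by
    rw [hJ]
    exact Nat.floor_le (by positivity)
  have hJ2 : ε₀ * Real.log k < J + 1 := by
    rw [hJ]
    exact Nat.lt_floor_add_one _
  have hDd : (D : ℝ) * d ^ (J + 1) ≤ e := by
    have h1 : d ^ (J + 1) ≤ (k : ℝ) ^ (-(2 * c)) := by
      rw [← Real.rpow_natCast, Real.rpow_def_of_pos hd0, Real.rpow_def_of_pos hk0]
      apply Real.exp_le_exp.mpr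
      have h2 : Real.log d = - Real.log (1 / d) := by
        rw [one_div, Real.log_inv]; ring
      rw [h2]
      push_cast
      have h3 : ε₀ * Real.log k * Real.log (1 / d) ≤ (J + 1) * Real.log (1 / d) :=
        mul_le_mul_of_nonneg_right hJ2.le hlog.le
      have h4 : 2 * c * Real.log k ≤ ε₀ * Real.log (1 / d) * Real.log k :=
        mul_le_mul_of_nonneg_right hc2 hlogk
      nlinarith [h3, h4]
    have h5 : (0 : ℝ) < (k : ℝ) ^ c := Real.rpow_pos_of_pos hk0 c
    calc (D : ℝ) * d ^ (J + 1) ≤ (k : ℝ) ^ c * (k : ℝ) ^ (-(2 * c)) :=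
          mul_le_mul hD h1 (by positivity) h5.le
      _ = (k : ℝ) ^ (-c) := by
          rw [← Real.rpow_add hk0]
          congr 1
          ring
      _ = 1 / (k : ℝ) ^ c := by
          rw [Real.rpow_neg hk0.le, one_div]
      _ ≤ e := by
          rw [div_le_iff₀ h5]
          rw [div_le_iff₀ he0] at hkc
          linarith
  -- apply the hypotheses
  obtain ⟨U, C₁, hU, hC₁, hUc, hC₁c, hw₁⟩ := hT k hk1 J hJ1 V H M hH hMax
  obtain ⟨G, hG, C₂, hC₂, hcov₂, hGdeg, hC₂c⟩ := hL k hk2 V H M hH hMax (by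
    intro S hS
    exact le_trans (Nat.pow_le_pow_left (hDeg S hS) 2) hD2)
  have hHc := hN V k D H M h2k hH hMax hDeg
  obtain ⟨F, hF⟩ : ∃ F : Finset (Finset V), F = (H \ M).filter (fun f => a₀ ≤ typ k M f ∧
      (∀ S ∈ U, ¬ S ⊆ f) ∧ ∀ R ∈ C₁, ¬ R ⊆ f) := ⟨_, rfl⟩
  have hFsub : F ⊆ H \ M := by rw [hF]; exact filter_subset _ _
  obtain ⟨R, hRsub, hRc⟩ := hR V k H M F d h2k hH hMax hFsub hd0.le hd1.le
  have hM0 : (0 : ℝ) ≤ M.card := Nat.cast_nonneg _
  -- the weight of `F`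
  have hwF : wt k M F d ≤ 2 * e * k * M.card := by
    have hsplit : wt k M F d = wt k M (F.filter (fun f => typ k M f ≤ J)) d
        + wt k M (F.filter (fun f => ¬ typ k M f ≤ J)) d := by
      unfold wt
      exact (sum_filter_add_sum_filter_not F _ _).symm
    have hlow : wt k M (F.filter (fun f => typ k M f ≤ J)) d ≤ e * k * M.card := by
      refine le_trans (le_of_eq ?_) hw₁
      congr 1
      rw [hF]
      ext f
      simp only [mem_filter]
      tauto
    have hhigh : wt k M (F.filter (fun f => ¬ typ k M f ≤ J)) d ≤ e * k * M.card := by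
      have h1 : wt k M (F.filter (fun f => ¬ typ k M f ≤ J)) d
          ≤ ∑ _f ∈ F.filter (fun f => ¬ typ k M f ≤ J), d ^ (J + 1) := by
        unfold wt
        apply sum_le_sum
        intro f hf
        rw [mem_filter] at hf
        exact pow_le_pow_of_le_one hd0.le hd1.le (by omega)
      rw [sum_const, nsmul_eq_mul] at h1
      have h2 : (F.filter (fun f => ¬ typ k M f ≤ J)).card ≤ H.card :=
        card_le_card ((filter_subset _ _).trans (hFsub.trans sdiff_subset))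
      have h3 : ((F.filter (fun f => ¬ typ k M f ≤ J)).card : ℝ) ≤ k * M.card * D := by
        have : (F.filter (fun f => ¬ typ k M f ≤ J)).card ≤ k * M.card * D := h2.trans hHc
        exact_mod_cast this
      have h4 : (0 : ℝ) ≤ d ^ (J + 1) := by positivity
      calc wt k M (F.filter (fun f => ¬ typ k M f ≤ J)) d
          ≤ ((F.filter (fun f => ¬ typ k M f ≤ J)).card : ℝ) * d ^ (J + 1) := h1
        _ ≤ k * M.card * D * d ^ (J + 1) := mul_le_mul_of_nonneg_right h3 h4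
        _ = k * M.card * (D * d ^ (J + 1)) := by ring
        _ ≤ k * M.card * e := mul_le_mul_of_nonneg_left hDd (by positivity)
        _ = e * k * M.card := by ring
    rw [hsplit]
    linarith
  -- one ridge for each set
  have hex : ∀ f : Finset V, ∃ S : Finset V, S ⊆ f ∧ (f.card = k → S.card = k - 1) := by
    intro f
    by_cases hf : f.card = k
    · obtain ⟨S, hS, hSc⟩ := exists_subset_card_eq (s := f) (n := k - 1) (by omega)
      exact ⟨S, hS, fun _ => hSc⟩
    · exact ⟨f, Subset.refl f, fun h => absurd h hf⟩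
  choose ρ hρ hρc using hex
  obtain ⟨C₃, hC₃⟩ : ∃ C₃ : Finset (Finset V),
      C₃ = (F.filter (fun f => ∀ S ∈ R, ¬ S ⊆ f)).image ρ := ⟨_, rfl⟩
  have hC₃c : (C₃.card : ℝ) ≤ ((F.filter (fun f => ∀ S ∈ R, ¬ S ⊆ f)).card : ℝ) := by
    rw [hC₃]
    exact_mod_cast card_image_le
  have hC₄c : ((M.image ρ).card : ℝ) ≤ e * k * M.card := by
    have h1 : ((M.image ρ).card : ℝ) ≤ M.card := by exact_mod_cast card_image_le
    have h2 : 1 ≤ e * k := by
      rw [div_le_iff₀ he0] at hke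
      linarith
    nlinarith [h1, h2, hM0]
  refine ⟨G, ?_, U ∪ C₁ ∪ C₂ ∪ R ∪ C₃ ∪ M.image ρ, ?_, ?_, hGdeg, ?_⟩
  · exact hG.trans ((filter_subset _ _).trans sdiff_subset)
  · intro S hS
    simp only [mem_union] at hS
    rcases hS with ((((hS | hS) | hS) | hS) | hS) | hS
    · exact (mem_shadow.mp (hU hS)).1
    · exact hC₁ S hS
    · exact hC₂ S hS
    · exact (mem_shadow.mp (hRsub hS)).1
    · rw [hC₃, mem_image] at hS
      obtain ⟨f, hf, rfl⟩ := hS
      apply hρc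
      exact hH f (mem_sdiff.mp (hFsub (mem_filter.mp hf).1)).1
    · rw [mem_image] at hS
      obtain ⟨f, hf, rfl⟩ := hS
      apply hρc
      exact hH f (hMax.1.1 hf)
  · intro f hf hfG
    by_cases hfM : f ∈ M
    · exact ⟨ρ f, mem_union_right _ (mem_image_of_mem ρ hfM), hρ f⟩
    · have hfHM : f ∈ H \ M := mem_sdiff.mpr ⟨hf, hfM⟩
      by_cases hta : typ k M f < a₀
      · obtain ⟨S, hS, hSf⟩ := hcov₂ f (mem_filter.mpr ⟨hfHM, hta⟩) hfG
        refine ⟨S, ?_, hSf⟩
        simp only [mem_union]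
        tauto
      · by_cases hUf : ∀ S ∈ U, ¬ S ⊆ f
        · by_cases hC₁f : ∀ S ∈ C₁, ¬ S ⊆ f
          · have hfF : f ∈ F := by
              rw [hF, mem_filter]
              exact ⟨hfHM, by omega, hUf, hC₁f⟩
            by_cases hRf : ∀ S ∈ R, ¬ S ⊆ f
            · refine ⟨ρ f, ?_, hρ f⟩
              have : ρ f ∈ C₃ := by
                rw [hC₃]
                exact mem_image_of_mem ρ (mem_filter.mpr ⟨hfF, hRf⟩)
              simp only [mem_union]
              tauto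
            · push Not at hRf
              obtain ⟨S, hS, hSf⟩ := hRf
              refine ⟨S, ?_, hSf⟩
              simp only [mem_union]
              tauto
          · push Not at hC₁f
            obtain ⟨S, hS, hSf⟩ := hC₁f
            refine ⟨S, ?_, hSf⟩
            simp only [mem_union]
            tauto
        · push Not at hUf
          obtain ⟨S, hS, hSf⟩ := hUf
          refine ⟨S, ?_, hSf⟩
          simp only [mem_union]
          tauto
  · have hcard : ((U ∪ C₁ ∪ C₂ ∪ R ∪ C₃ ∪ M.image ρ).card : ℝ) ≤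
        U.card + C₁.card + C₂.card + R.card + C₃.card + (M.image ρ).card := by
      have h1 := card_union_le (U ∪ C₁ ∪ C₂ ∪ R ∪ C₃) (M.image ρ)
      have h2 := card_union_le (U ∪ C₁ ∪ C₂ ∪ R) C₃
      have h3 := card_union_le (U ∪ C₁ ∪ C₂) R
      have h4 := card_union_le (U ∪ C₁) C₂
      have h5 := card_union_le U C₁
      have h6 : (U ∪ C₁ ∪ C₂ ∪ R ∪ C₃ ∪ M.image ρ).card ≤
        U.card + C₁.card + C₂.card + R.card + C₃.card + (M.image ρ).card := by omega
      exact_mod_cast h6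
    have hkM : 0 ≤ (k : ℝ) * M.card := by positivity
    have h7 : (8 * e) * (k * M.card) ≤ ε * (k * M.card) := mul_le_mul_of_nonneg_right he8 hkM
    have h8 : 0 ≤ e * (k * M.card) := by positivity
    have hd' : 1 - d = e := by linarith
    rw [hd'] at hRc
    nlinarith [hcard, hRc, hwF, hC₃c, hC₄c, hUc, hC₁c, hC₂c, h7, h8]

end Pool.Agent.Helper60.GT
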