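import Pool.Agent.Helper60.GT.Defs

/-!
# Project GP: ridge degrees up to `k^c`, statements
-/

set_option autoImplicit false

open Finset

namespace Pool.Agent.Helper60.GT

/-- P1. The main lemma with a free density parameter `β`. -/
def StMain2 : Prop :=
  ∀ (V : Type) [DecidableEq V] (k a b β : ℕ) (H M F : Finset (Finset V)) (θ δ T : ℝ),
    2 ≤ k → 2 ≤ a → a ≤ b → 1 ≤ β → b ≤ 2 ^ β → (∀ e ∈ H, e.card = k) → MaxPack k H M →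
    F ⊆ H \ M → (∀ f ∈ F, a ≤ typ k M f ∧ typ k M f ≤ b) →
    0 < θ → θ ≤ 1 → 0 < δ → δ ≤ 1 → 0 < T →
    k * (1 / (160 * (b : ℝ) ^ 2 * 2 ^ β)) * T * θ ^ b = 2 ^ β →
    (40 : ℝ) * 4 ^ β ≤ k → 40 * 4 ^ β * δ ^ (a - 1) ≤ T * θ →
    (∀ R : Finset V, R.card = k - 1 → ¬ Under M R → load k M F δ R ≤ T) →
    (∀ R : Finset V, R.card = k - 1 → Under M R →
      load k M F δ R ≤ 4 * b * δ / θ ^ (b - 1)) →
    wt k M F δ ≤ 128 / β * δ * k * T * θ * M.card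

/-- P2. One scale. -/
def StStep2 : Prop :=
  ∀ (V : Type) [DecidableEq V] (k a b β : ℕ) (H M F : Finset (Finset V)) (θ δ T : ℝ),
    2 ≤ k → 2 ≤ a → a ≤ b → 1 ≤ β → b ≤ 2 ^ β → (∀ e ∈ H, e.card = k) → MaxPack k H M →
    F ⊆ H \ M → (∀ f ∈ F, a ≤ typ k M f ∧ typ k M f ≤ b) →
    0 < θ → θ ≤ 1 → 0 < δ → δ ≤ 1 → 0 < T →
    k * (1 / (160 * (b : ℝ) ^ 2 * 2 ^ β)) * T * θ ^ b = 2 ^ β →
    (40 : ℝ) * 4 ^ β ≤ k → 40 * 4 ^ β * δ ^ (a - 1) ≤ T * θ →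
    (∀ R : Finset V, R.card = k - 1 → ¬ Under M R → load k M F δ R ≤ T) →
    ∃ G ⊆ F, ∃ U C : Finset (Finset V), U ⊆ shadow k M ∧ (∀ R ∈ C, R.card = k - 1) ∧
      (∀ f ∈ F, f ∉ G → (∃ S ∈ U, S ⊆ f) ∨ (∃ R ∈ C, R ⊆ f)) ∧
      (∀ R : Finset V, R.card = k - 1 → ¬ Under M R → load k M G δ R ≤ T / 2) ∧
      wt k M G δ ≤ 128 / β * δ * k * T * θ * M.card ∧
      (U.card : ℝ) ≤ 10240 * (b : ℝ) ^ 2 * 4 ^ β * M.card ∧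
      (C.card : ℝ) ≤ 256 / β * δ * k * θ * M.card

/-- P3. The first step. -/
def StFirst2 : Prop :=
  ∀ (V : Type) [DecidableEq V] (k a b β : ℕ) (H M F : Finset (Finset V)) (θ δ T : ℝ),
    2 ≤ k → 2 ≤ a → a ≤ b → 1 ≤ β → b ≤ 2 ^ β → (∀ e ∈ H, e.card = k) → MaxPack k H M →
    F ⊆ H \ M → (∀ f ∈ F, a ≤ typ k M f ∧ typ k M f ≤ b) →
    0 < θ → θ ≤ 1 → 0 < δ → δ ≤ 1 → 0 < T →
    k * (1 / (160 * (b : ℝ) ^ 2 * 2 ^ β)) * T * θ ^ b = 2 ^ β →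
    (40 : ℝ) * 4 ^ β ≤ k → 40 * 4 ^ β * δ ^ (a - 1) ≤ T * θ →
    ∃ G ⊆ F, ∃ U C : Finset (Finset V), U ⊆ shadow k M ∧ (∀ R ∈ C, R.card = k - 1) ∧
      (∀ f ∈ F, f ∉ G → (∃ S ∈ U, S ⊆ f) ∨ (∃ R ∈ C, R ⊆ f)) ∧
      (∀ R : Finset V, R.card = k - 1 → ¬ Under M R → load k M G δ R ≤ T) ∧
      (U.card : ℝ) ≤ 10240 * (b : ℝ) ^ 2 * 4 ^ β * M.card ∧
      (C.card : ℝ) ≤ k * (256 / β * δ * k * θ * M.card)

/-- P4. A window of types. -/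
def StWindow2 : Prop :=
  ∀ (V : Type) [DecidableEq V] (k a b β : ℕ) (H M : Finset (Finset V)) (δ θ₀ : ℝ),
    2 ≤ k → 2 ≤ a → a ≤ b → 1 ≤ β → b ≤ 2 ^ β → (∀ e ∈ H, e.card = k) → MaxPack k H M →
    0 < δ → δ ≤ 1 → 0 < θ₀ → θ₀ ≤ 1 →
    k * δ ^ (a - 1) * θ₀ ^ (b - 1) = 4 * (b : ℝ) ^ 2 →
    (40 : ℝ) * 4 ^ β ≤ k →
    ∃ U C : Finset (Finset V), U ⊆ shadow k M ∧ (∀ R ∈ C, R.card = k - 1) ∧
      (U.card : ℝ) ≤ (b * (Nat.clog 2 (256 * k) : ℝ) + 2) * (10240 * (b : ℝ) ^ 2 * 4 ^ β)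
        * M.card ∧
      (C.card : ℝ) ≤ 513 * (b / β) * k * θ₀ * M.card ∧
      wt k M ((H \ M).filter (fun f => (a ≤ typ k M f ∧ typ k M f ≤ b) ∧
        (∀ S ∈ U, ¬ S ⊆ f) ∧ ∀ R ∈ C, ¬ R ⊆ f)) δ ≤
          5120 / β * 4 ^ β * δ ^ a * k * M.card

/-- P5. All types between `a₀` and `J`. -/
def StTypes2 : Prop :=
  ∀ d ε : ℝ, 0 < d → d < 1 → 0 < ε →
    ∃ a₀ : ℕ, 2 ≤ a₀ ∧ ∃ ε₀ : ℝ, 0 < ε₀ ∧ ∃ k₀ : ℕ, ∀ k : ℕ, k₀ ≤ k →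
    ∀ J : ℕ, (J : ℝ) ≤ ε₀ * Real.log k →
    ∀ (V : Type) [DecidableEq V] (H M : Finset (Finset V)), (∀ e ∈ H, e.card = k) →
      MaxPack k H M →
      ∃ U C : Finset (Finset V), U ⊆ shadow k M ∧ (∀ R ∈ C, R.card = k - 1) ∧
        (U.card : ℝ) ≤ ε * k * M.card ∧ (C.card : ℝ) ≤ ε * k * M.card ∧
        wt k M ((H \ M).filter (fun f => (a₀ ≤ typ k M f ∧ typ k M f ≤ J) ∧
          (∀ S ∈ U, ¬ S ⊆ f) ∧ ∀ R ∈ C, ¬ R ⊆ f)) d ≤ ε * k * M.card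

/-- P6. The number of edges of type `j` in a family of bounded ridge degrees. -/
def StTypeJ2 : Prop :=
  ∀ (V : Type) [DecidableEq V] (k j t : ℕ) (H M F : Finset (Finset V)),
    2 ≤ k → 2 ≤ j → 1 ≤ t → (∀ e ∈ H, e.card = k) → MaxPack k H M → F ⊆ H \ M →
    (∀ f ∈ F, typ k M f = j) →
    (∀ S : Finset V, S.card = k - 1 → (F.filter (fun e => S ⊆ e)).card ≤ t) →
    (F.card : ℝ) ≤ 4 * ((1 + (j : ℝ) ^ 2) * ((k : ℝ) * t) ^ (1 - 1 / (j : ℝ))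
      + j * ((t : ℝ) + k)) * M.card

/-- P7. Low types: reduction to bounded ridge degrees. -/
def StLow : Prop :=
  ∀ (a₀ : ℕ) (ε : ℝ), 0 < ε → ∃ i₀ k₀ : ℕ, ∀ k : ℕ, k₀ ≤ k →
    ∀ (V : Type) [DecidableEq V] (H M : Finset (Finset V)), (∀ e ∈ H, e.card = k) →
      MaxPack k H M →
      (∀ S : Finset V, S.card = k - 1 → (H.filter (fun e => S ⊆ e)).card ^ 2 ≤ k) →
      ∃ G ⊆ (H \ M).filter (fun f => typ k M f < a₀), ∃ C : Finset (Finset V),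
        (∀ R ∈ C, R.card = k - 1) ∧
        (∀ f ∈ (H \ M).filter (fun f => typ k M f < a₀), f ∉ G → ∃ R ∈ C, R ⊆ f) ∧
        (∀ S : Finset V, S.card = k - 1 → (G.filter (fun e => S ⊆ e)).card ≤ 2 ^ i₀) ∧
        (C.card : ℝ) ≤ ε * k * M.card

/-- P8. A random subset of the ridges under `M`. -/
def StRand : Prop :=
  ∀ (V : Type) [DecidableEq V] (k : ℕ) (H M F : Finset (Finset V)) (d : ℝ),
    2 ≤ k → (∀ e ∈ H, e.card = k) → MaxPack k H M → F ⊆ H \ M → 0 ≤ d → d ≤ 1 →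
    ∃ R ⊆ shadow k M,
      (R.card : ℝ) + ((F.filter (fun f => ∀ S ∈ R, ¬ S ⊆ f)).card : ℝ) ≤
        (1 - d) * k * M.card + wt k M F d

/-- P9. The cover for ridge degrees at most `k^c`, up to a family of bounded ridge degrees. -/
def StPoly : Prop :=
  ∀ ε : ℝ, 0 < ε → ∃ i₀ : ℕ, ∃ c : ℝ, 0 < c ∧ ∃ k₀ : ℕ, ∀ k : ℕ, k₀ ≤ k → ∀ D : ℕ,
    (D : ℝ) ≤ (k : ℝ) ^ c →
    ∀ (V : Type) [DecidableEq V] (H M : Finset (Finset V)),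
    (∀ e ∈ H, e.card = k) → MaxPack k H M →
    (∀ S : Finset V, S.card = k - 1 → (H.filter (fun e => S ⊆ e)).card ≤ D) →
    ∃ G ⊆ H, ∃ C : Finset (Finset V), (∀ R ∈ C, R.card = k - 1) ∧
      (∀ e ∈ H, e ∉ G → ∃ R ∈ C, R ⊆ e) ∧
      (∀ S : Finset V, S.card = k - 1 → (G.filter (fun e => S ⊆ e)).card ≤ 2 ^ i₀) ∧
      (C.card : ℝ) ≤ ε * k * M.card

end Pool.Agent.Helper60.GT
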